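import Mathlib

namespace Pool.Agent.Lib.MP_9f1eae_lc

/-- `B` is a `Sigma^0_2` set. -/
def IsSigma2 (B : Set ℕ) : Prop :=
  ∃ R : ℕ × ℕ × ℕ → Prop, ComputablePred R ∧ ∀ n, n ∈ B ↔ ∃ a, ∀ b, R (n, a, b)

/-- `B` is a `Pi^0_2` set. -/
def IsPi2 (B : Set ℕ) : Prop :=
  ∃ R : ℕ × ℕ × ℕ → Prop, ComputablePred R ∧ ∀ n, n ∈ B ↔ ∀ a, ∃ b, R (n, a, b)

open Classical in
/-- The characteristic function of `B`. -/
noncomputable def chi (B : Set ℕ) : ℕ →. ℕ := fun n => Part.some (if n ∈ B then 1 else 0)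

end Pool.Agent.Lib.MP_9f1eae_lc
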