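import Mathlib
import Pool.Agent.Lib.MP_3d42d9_lc.PR
import Pool.Agent.Lib.MP_3d42d9_lc.Oracle
import Pool.Agent.Lib.MP_9f1eae_lc.Defs

-- part Pool.Agent.Lib.MP_9f1eae_lc.Poly
section

namespace Pool.Agent.Lib.MP_9f1eae_lc

open Pool.Agent.Lib.MP_3d42d9_lc MvPolynomial

/-- Polynomials with natural coefficients as lists of monomials. -/
abbrev LP := List (List ℕ)

/-- Terms: a denominator and two list polynomials. -/
abbrev Tm := ℕ × LP × LP

def mulP (L M : LP) : LP := L.flatMap fun μ => M.map fun ν => μ ++ ν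

def scal (m : ℕ) (L : LP) : LP := (List.range m).flatMap fun _ => L

def subst (g : ℕ → LP) (L : LP) : LP :=
  L.flatMap fun μ => μ.foldr (fun j acc => mulP (g j) acc) [[]]

def eqM (μ ν : List ℕ) : Bool :=
  (μ ++ ν).all fun v => (μ.filter (fun x => x == v)).length == (ν.filter (fun x => x == v)).length

def eqP (L M : LP) : Bool :=
  (L ++ M).all fun μ => (L.filter (fun ν => eqM μ ν)).length == (M.filter (fun ν => eqM μ ν)).length

def addT (s t : Tm) : Tm :=
  (s.1 * t.1 + s.1 + t.1, scal (t.1 + 1) s.2.1 ++ scal (s.1 + 1) t.2.1,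
    scal (t.1 + 1) s.2.2 ++ scal (s.1 + 1) t.2.2)

def mulT (s t : Tm) : Tm :=
  (s.1 * t.1 + s.1 + t.1, mulP s.2.1 t.2.1 ++ mulP s.2.2 t.2.2,
    mulP s.2.1 t.2.2 ++ mulP s.2.2 t.2.1)

def eqT (g : ℕ → LP) (s t : Tm) : Bool :=
  eqP (subst g (scal (t.1 + 1) s.2.1 ++ scal (s.1 + 1) t.2.2))
    (subst g (scal (s.1 + 1) t.2.1 ++ scal (t.1 + 1) s.2.2))

def supp (t : Tm) : List ℕ := (t.2.1 ++ t.2.2).flatMap fun μ => μ

section PRs
variable {α : Type} [Primcodable α]

@[fun_prop] theorem PR.mulP {f g : α → LP} (hf : PR f) (hg : PR g) :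
    PR (fun a => mulP (f a) (g a)) := by
  unfold MP_9f1eae_lc.mulP
  refine PR.flatMap hf ?_
  refine PR.map (PR.comp' hg (by fun_prop)) (by fun_prop)

@[fun_prop] theorem PR.scal {f : α → ℕ} {g : α → LP} (hf : PR f) (hg : PR g) :
    PR (fun a => scal (f a) (g a)) := by
  unfold MP_9f1eae_lc.scal
  exact PR.flatMap (by fun_prop) (PR.comp' hg (by fun_prop))

theorem PR.subst {g : ℕ → LP} (hg : PR g) {f : α → LP} (hf : PR f) :
    PR (fun a => subst g (f a)) := by
  unfold MP_9f1eae_lc.subst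
  refine PR.flatMap hf (PR.foldr (by fun_prop) (by fun_prop) ?_)
  exact PR.mulP (PR.comp' hg (by fun_prop)) (by fun_prop)

theorem pr_eqM : PR (fun p : List ℕ × List ℕ => eqM p.1 p.2) := by
  unfold eqM
  refine PR.all (by fun_prop) (PR.beq (PR.length (PR.filter (by fun_prop) (by fun_prop)))
    (PR.length (PR.filter (by fun_prop) (by fun_prop))))

@[fun_prop] theorem PR.eqM {f g : α → List ℕ} (hf : PR f) (hg : PR g) :
    PR (fun a => eqM (f a) (g a)) :=
  PR.comp' (g := fun a => (f a, g a)) pr_eqM (by fun_prop)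

theorem pr_eqP : PR (fun p : LP × LP => eqP p.1 p.2) := by
  unfold eqP
  refine PR.all (by fun_prop) (PR.beq (PR.length (PR.filter (by fun_prop) (by fun_prop)))
    (PR.length (PR.filter (by fun_prop) (by fun_prop))))

@[fun_prop] theorem PR.eqP {f g : α → LP} (hf : PR f) (hg : PR g) :
    PR (fun a => eqP (f a) (g a)) :=
  PR.comp' (g := fun a => (f a, g a)) pr_eqP (by fun_prop)

@[fun_prop] theorem PR.addT {f g : α → Tm} (hf : PR f) (hg : PR g) :
    PR (fun a => addT (f a) (g a)) := by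
  unfold MP_9f1eae_lc.addT; fun_prop

@[fun_prop] theorem PR.mulT {f g : α → Tm} (hf : PR f) (hg : PR g) :
    PR (fun a => mulT (f a) (g a)) := by
  unfold MP_9f1eae_lc.mulT; fun_prop

theorem pr_eqT {g : ℕ → LP} (hg : PR g) : PR (fun p : Tm × Tm => eqT g p.1 p.2) := by
  unfold eqT
  exact PR.eqP (PR.subst hg (by fun_prop)) (PR.subst hg (by fun_prop))

@[fun_prop] theorem PR.supp {f : α → Tm} (hf : PR f) : PR (fun a => supp (f a)) := by
  unfold MP_9f1eae_lc.supp; fun_prop

end PRs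

section Ev
variable {A : Type} [CommRing A]

def ev (f : ℕ → A) (L : LP) : A := (L.map fun μ => (μ.map f).prod).sum

@[simp] theorem ev_nil (f : ℕ → A) : ev f [] = 0 := by simp [ev]
@[simp] theorem ev_cons (f : ℕ → A) (μ : List ℕ) (L : LP) :
    ev f (μ :: L) = (μ.map f).prod + ev f L := by simp [ev]
@[simp] theorem ev_append (f : ℕ → A) (L M : LP) : ev f (L ++ M) = ev f L + ev f M := by
  simp [ev]

theorem ev_map_append (f : ℕ → A) (μ : List ℕ) (M : LP) :
    ev f (M.map fun ν => μ ++ ν) = (μ.map f).prod * ev f M := by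
  induction M with
  | nil => simp
  | cons ν M ih => simp only [List.map_cons, ev_cons, ih, List.map_append, List.prod_append]; ring

@[simp] theorem ev_mulP (f : ℕ → A) (L M : LP) : ev f (mulP L M) = ev f L * ev f M := by
  unfold mulP
  induction L with
  | nil => simp
  | cons μ L ih => simp only [List.flatMap_cons, ev_append, ih, ev_map_append, ev_cons]; ring

@[simp] theorem ev_scal (f : ℕ → A) (m : ℕ) (L : LP) : ev f (scal m L) = m * ev f L := by
  unfold scal
  induction m with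
  | zero => simp
  | succ m ih =>
    simp only [List.range_succ, List.flatMap_append, ev_append, ih, List.flatMap_cons,
      List.flatMap_nil, List.append_nil]
    push_cast; ring

theorem ev_subst (f : ℕ → A) (g : ℕ → LP) (L : LP) :
    ev f (subst g L) = ev (fun j => ev f (g j)) L := by
  unfold subst
  induction L with
  | nil => simp
  | cons μ L ih =>
    simp only [List.flatMap_cons, ev_append, ih, ev_cons]
    congr 1
    induction μ with
    | nil => simp
    | cons j μ ih => simp [ih]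

theorem map_ev {A' F : Type} [CommRing A'] [FunLike F A A'] [RingHomClass F A A'] (φ : F)
    (f : ℕ → A) (L : LP) : φ (ev f L) = ev (fun j => φ (f j)) L := by
  induction L with
  | nil => simp
  | cons μ L ih => simp [ih, map_list_prod, Function.comp_def]

theorem ev_congr {f g : ℕ → A} {L : LP} (h : ∀ μ ∈ L, ∀ j ∈ μ, f j = g j) : ev f L = ev g L := by
  unfold ev
  congr 1
  refine List.map_congr_left fun μ hμ => ?_
  congr 1
  exact List.map_congr_left (h μ hμ)

theorem eqM_iff (μ ν : List ℕ) : eqM μ ν = true ↔ μ.Perm ν := by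
  unfold eqM
  rw [List.perm_iff_count]
  simp only [List.all_eq_true, beq_iff_eq, ← List.countP_eq_length_filter, List.count]
  constructor
  · intro h v
    by_cases hv : v ∈ μ ++ ν
    · exact h v hv
    · rw [List.mem_append, not_or] at hv
      have h1 := List.count_eq_zero_of_not_mem hv.1
      have h2 := List.count_eq_zero_of_not_mem hv.2
      simp only [List.count] at h1 h2
      rw [h1, h2]
  · exact fun h v _ => h v

noncomputable def expo (μ : List ℕ) : ℕ →₀ ℕ := Multiset.toFinsupp (μ : Multiset ℕ)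

theorem expo_eq_iff (μ ν : List ℕ) : expo μ = expo ν ↔ eqM μ ν = true := by
  rw [eqM_iff, expo, expo, Multiset.toFinsupp.injective.eq_iff, Multiset.coe_eq_coe]

theorem prod_X (μ : List ℕ) :
    (μ.map (X : ℕ → MvPolynomial ℕ ℚ)).prod = monomial (expo μ) 1 := by
  induction μ with
  | nil => simp [expo]
  | cons j μ ih =>
    have : expo (j :: μ) = Finsupp.single j 1 + expo μ := by
      rw [expo, ← Multiset.cons_coe, ← Multiset.singleton_add, map_add,
        Multiset.toFinsupp_singleton, expo]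
    rw [List.map_cons, List.prod_cons, ih, this, X, monomial_mul, one_mul]

theorem coeff_ev (d : ℕ →₀ ℕ) (L : LP) :
    coeff d (ev (X : ℕ → MvPolynomial ℕ ℚ) L) = (L.countP (fun ν => decide (d = expo ν)) : ℕ) := by
  induction L with
  | nil => simp
  | cons μ L ih =>
    rw [ev_cons, coeff_add, ih, prod_X, coeff_monomial, List.countP_cons]
    by_cases h : d = expo μ
    · simp [h, add_comm]
    · simp [h, Ne.symm h]

theorem eqP_iff (L M : LP) :
    eqP L M = true ↔ ev (X : ℕ → MvPolynomial ℕ ℚ) L = ev X M := by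
  have key : ∀ (μ : List ℕ) (K : LP), (K.filter (fun ν => eqM μ ν)).length =
      K.countP (fun ν => decide (expo μ = expo ν)) := by
    intro μ K
    rw [← List.countP_eq_length_filter]
    congr 1
    funext ν
    rw [Bool.eq_iff_iff, decide_eq_true_iff, expo_eq_iff]
  unfold eqP
  simp only [List.all_eq_true, beq_iff_eq, key]
  constructor
  · intro h
    ext d
    rw [coeff_ev, coeff_ev]
    by_cases hd : ∃ μ ∈ L ++ M, d = expo μ
    · obtain ⟨μ, hμ, rfl⟩ := hd
      rw [h μ hμ]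
    · push Not at hd
      rw [List.countP_eq_zero.2, List.countP_eq_zero.2]
      · intro ν hν
        simpa using hd ν (List.mem_append_right _ hν)
      · intro ν hν
        simpa using hd ν (List.mem_append_left _ hν)
  · intro h μ _
    have := congrArg (coeff (expo μ)) h
    rw [coeff_ev, coeff_ev] at this
    exact_mod_cast this

variable [Algebra ℚ A]

def val (f : ℕ → A) (t : Tm) : A := ((t.1 + 1 : ℚ)⁻¹) • (ev f t.2.1 - ev f t.2.2)

theorem mul_val (f : ℕ → A) (t : Tm) :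
    ((t.1 : A) + 1) * val f t = ev f t.2.1 - ev f t.2.2 := by
  have h : ((t.1 : A) + 1) = algebraMap ℚ A (t.1 + 1) := by simp
  rw [val, h, ← Algebra.smul_def, smul_smul, mul_inv_cancel₀ (by positivity), one_smul]

theorem cancel_succ (m : ℕ) {x y : A} (h : ((m : A) + 1) * x = ((m : A) + 1) * y) : x = y := by
  have h1 : ((m : A) + 1) = algebraMap ℚ A (m + 1) := by simp
  have h2 : IsUnit ((m : A) + 1) := by
    rw [h1]
    exact (IsUnit.mk0 _ (by positivity)).map _
  exact h2.mul_left_cancel h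

theorem val_addT (f : ℕ → A) (s t : Tm) : val f (addT s t) = val f s + val f t := by
  apply cancel_succ (addT s t).1
  rw [mul_val]
  have h1 := mul_val f s
  have h2 := mul_val f t
  simp only [addT, ev_append, ev_scal]
  push_cast
  linear_combination (-(t.1 : A) - 1) * h1 + (-(s.1 : A) - 1) * h2

theorem val_mulT (f : ℕ → A) (s t : Tm) : val f (mulT s t) = val f s * val f t := by
  apply cancel_succ (mulT s t).1
  rw [mul_val]
  have h1 := mul_val f s
  have h2 := mul_val f t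
  simp only [mulT, ev_append, ev_mulP]
  push_cast
  linear_combination (-(ev f t.2.1 - ev f t.2.2)) * h1 + (-((s.1 : A) + 1) * val f s) * h2

theorem val_eq_iff (f : ℕ → A) (s t : Tm) : val f s = val f t ↔
    ev f (scal (t.1 + 1) s.2.1 ++ scal (s.1 + 1) t.2.2) =
      ev f (scal (s.1 + 1) t.2.1 ++ scal (t.1 + 1) s.2.2) := by
  have h1 := mul_val f s
  have h2 := mul_val f t
  simp only [ev_append, ev_scal]
  push_cast
  constructor
  · intro h
    rw [h] at h1
    linear_combination (-(t.1 : A) - 1) * h1 + ((s.1 : A) + 1) * h2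
  · intro h
    apply cancel_succ s.1
    apply cancel_succ t.1
    linear_combination ((t.1 : A) + 1) * h1 - ((s.1 : A) + 1) * h2 + h

theorem mem_scal {m : ℕ} {L : LP} {μ : List ℕ} (h : μ ∈ scal m L) : μ ∈ L := by
  simp only [scal, List.mem_flatMap] at h
  obtain ⟨_, _, h⟩ := h
  exact h

theorem mem_mulP {L M : LP} {μ : List ℕ} (h : μ ∈ mulP L M) {j : ℕ} (hj : j ∈ μ) :
    (∃ ν ∈ L, j ∈ ν) ∨ ∃ ν ∈ M, j ∈ ν := by
  simp only [mulP, List.mem_flatMap, List.mem_map] at h
  obtain ⟨a, ha, b, hb, rfl⟩ := h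
  rcases List.mem_append.1 hj with h | h
  · exact Or.inl ⟨a, ha, h⟩
  · exact Or.inr ⟨b, hb, h⟩

theorem mem_supp {t : Tm} {j : ℕ} :
    j ∈ supp t ↔ (∃ ν ∈ t.2.1, j ∈ ν) ∨ ∃ ν ∈ t.2.2, j ∈ ν := by
  simp only [supp, List.mem_flatMap, List.mem_append]
  constructor
  · rintro ⟨a, h | h, h'⟩
    · exact Or.inl ⟨a, h, h'⟩
    · exact Or.inr ⟨a, h, h'⟩
  · rintro (⟨a, h, h'⟩ | ⟨a, h, h'⟩)
    · exact ⟨a, Or.inl h, h'⟩
    · exact ⟨a, Or.inr h, h'⟩

theorem exists_term (f : ℕ → A) (S : Set ℕ) {x : A} (hx : x ∈ Algebra.adjoin ℚ (f '' S)) :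
    ∃ t : Tm, val f t = x ∧ ∀ j ∈ supp t, j ∈ S := by
  induction hx using Algebra.adjoin_induction with
  | mem x hx =>
    obtain ⟨j, hj, rfl⟩ := hx
    exact ⟨(0, [[j]], []), by simp [val], by simpa [supp] using hj⟩
  | algebraMap r =>
    refine ⟨(r.den - 1, scal r.num.toNat [[]], scal (-r.num).toNat [[]]), ?_, ?_⟩
    · have h1 : ((r.den - 1 : ℕ) : ℚ) + 1 = r.den := by
        have := r.den_pos
        rw [Nat.cast_sub this]; simp
      have h2 : ((r.num.toNat : ℕ) : A) - (((-r.num).toNat : ℕ) : A) = (r.num : A) := by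
        have := Int.toNat_sub_toNat_neg r.num
        exact_mod_cast congrArg (fun z : ℤ => (z : A)) this
      simp only [val, h1, ev_scal, ev_cons, List.map_nil, List.prod_nil, ev_nil, add_zero,
        mul_one, h2]
      rw [Algebra.smul_def, ← map_intCast (algebraMap ℚ A), ← map_mul, inv_mul_eq_div,
        Rat.num_div_den]
    · intro j hj
      rcases mem_supp.1 hj with ⟨ν, h, h'⟩ | ⟨ν, h, h'⟩ <;>
      · have := mem_scal h
        simp at this
        subst this
        simp at h'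
  | add x y _ _ hx hy =>
    obtain ⟨s, rfl, hs⟩ := hx
    obtain ⟨t, rfl, ht⟩ := hy
    refine ⟨addT s t, val_addT f s t, fun j hj => ?_⟩
    rcases mem_supp.1 hj with ⟨ν, h, h'⟩ | ⟨ν, h, h'⟩ <;>
      rcases List.mem_append.1 h with h | h
    · exact hs j (mem_supp.2 (Or.inl ⟨ν, mem_scal h, h'⟩))
    · exact ht j (mem_supp.2 (Or.inl ⟨ν, mem_scal h, h'⟩))
    · exact hs j (mem_supp.2 (Or.inr ⟨ν, mem_scal h, h'⟩))
    · exact ht j (mem_supp.2 (Or.inr ⟨ν, mem_scal h, h'⟩))
  | mul x y _ _ hx hy =>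
    obtain ⟨s, rfl, hs⟩ := hx
    obtain ⟨t, rfl, ht⟩ := hy
    refine ⟨mulT s t, val_mulT f s t, fun j hj => ?_⟩
    rcases mem_supp.1 hj with ⟨ν, h, h'⟩ | ⟨ν, h, h'⟩ <;>
      rcases List.mem_append.1 h with h | h <;> rcases mem_mulP h h' with h | h
    · exact hs j (mem_supp.2 (Or.inl h))
    · exact ht j (mem_supp.2 (Or.inl h))
    · exact hs j (mem_supp.2 (Or.inr h))
    · exact ht j (mem_supp.2 (Or.inr h))
    · exact hs j (mem_supp.2 (Or.inl h))
    · exact ht j (mem_supp.2 (Or.inr h))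
    · exact hs j (mem_supp.2 (Or.inr h))
    · exact ht j (mem_supp.2 (Or.inl h))

end Ev

end Pool.Agent.Lib.MP_9f1eae_lc
end

-- part Pool.Agent.Lib.MP_9f1eae_lc.Present
section

namespace Pool.Agent.Lib.MP_9f1eae_lc

open Pool.Agent.Lib.MP_3d42d9_lc Encodable

def fnd (N : ℕ) (p : ℕ → Bool) : ℕ := (List.range N).findIdx p

theorem fnd_eq {N i : ℕ} {p : ℕ → Bool} (hi : i < N) (h1 : p i = true)
    (h2 : ∀ j < i, p j = false) : fnd N p = i := by
  unfold fnd
  rw [List.findIdx_eq (by simpa using hi)]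
  refine ⟨by simpa using h1, fun j hj => by simpa using h2 j hj⟩

theorem PR.fnd {α : Type} [Primcodable α] {N : α → ℕ} {p : α → ℕ → Bool} (hN : PR N)
    (hp : PR (fun q : α × ℕ => p q.1 q.2)) : PR (fun a => fnd (N a) (p a)) :=
  Primrec.list_findIdx (PR.range hN).primrec hp

def dec (T : Type) [Primcodable T] [Inhabited T] (n : ℕ) : T := (decode (α := T) n).getD default

theorem dec_encode {T : Type} [Primcodable T] [Inhabited T] (t : T) : dec T (encode t) = t := by
  simp [dec]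

@[fun_prop] theorem PR.dec {α T : Type} [Primcodable α] [Primcodable T] [Inhabited T]
    {f : α → ℕ} (hf : PR f) : PR (fun a => dec T (f a)) :=
  PR.optGetD (Primrec.decode.comp hf) (PR.const' _)

theorem present_nat {A : Type} (v : ℕ → A) (hs : Function.Surjective v) (eqb : ℕ → ℕ → Bool)
    (heq : ∀ s t, eqb s t = true ↔ v s = v t) (peq : PR fun p : ℕ × ℕ => eqb p.1 p.2)
    (cst : ℕ → ℕ) (hc : Function.Injective (fun n => v (cst n))) (pc : PR cst) :
    ∃ (e : ℕ ≃ A) (num rep : ℕ → ℕ), PR num ∧ PR rep ∧ (∀ t, e (num t) = v t) ∧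
      ∀ i, v (rep i) = e i := by
  classical
  have peq' : ∀ {α : Type} [Primcodable α] {f g : α → ℕ}, PR f → PR g →
      PR (fun a => eqb (f a) (g a)) := fun hf hg =>
    PR.comp' (g := fun a => (_, _)) peq (PR.pair hf hg)
  let least : ℕ → Bool := fun n => (List.range n).all fun m => !eqb m n
  have pleast : PR least :=
    PR.all (by fun_prop) (PR.not (peq' (by fun_prop) (by fun_prop)))
  have hleast : ∀ n, least n = true ↔ ∀ m < n, v m ≠ v n := by
    intro n
    simp only [least, List.all_eq_true, List.mem_range, Bool.not_eq_true', ne_eq, ← heq,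
      Bool.not_eq_true]
  let S : ℕ → Prop := fun n => least n = true
  let lr : ℕ → ℕ := fun n => fnd (n + 1) fun m => eqb m n
  have plr : PR lr := PR.fnd (by fun_prop) (peq' (by fun_prop) (by fun_prop))
  have hlr : ∀ n, lr n ≤ n ∧ v (lr n) = v n ∧ S (lr n) := by
    intro n
    have hex : ∃ m, v m = v n := ⟨n, rfl⟩
    have h1 : Nat.find hex ≤ n := Nat.find_min' hex rfl
    have : lr n = Nat.find hex := by
      refine fnd_eq (by omega) ((heq _ _).2 (Nat.find_spec hex)) fun j hj => ?_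
      rw [← Bool.not_eq_true, heq]
      exact Nat.find_min hex hj
    rw [this]
    refine ⟨h1, Nat.find_spec hex, (hleast _).2 fun m hm => ?_⟩
    rw [Nat.find_spec hex]
    exact Nat.find_min hex hm
  have hinj : ∀ m n, S m → S n → v m = v n → m = n := by
    intro m n hm hn h
    rcases lt_trichotomy m n with h1 | h1 | h1
    · exact absurd h ((hleast _).1 hn m h1)
    · exact h1
    · exact absurd h.symm ((hleast _).1 hm n h1)
  let cnt : ℕ → ℕ := fun n => ((List.range n).filter least).length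
  have pcnt : PR cnt := PR.length (PR.filter (by fun_prop) (PR.comp' pleast (by fun_prop)))
  have hcnt : ∀ n, cnt n = Nat.count S n := by
    intro n
    simp only [cnt, Nat.count, ← List.countP_eq_length_filter, S]
    congr 1
    funext m
    simp
  let bd : ℕ → ℕ := fun i => ((List.range (i + 1)).map cst).sum + 1
  have pbd : PR bd := PR.add (PR.sum (PR.map (by fun_prop) (PR.comp' pc (by fun_prop))))
    (by fun_prop)
  have hbd : ∀ i, i < Nat.count S (bd i) := by
    intro i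
    rw [Nat.count_eq_card_filter_range]
    have : (Finset.range (i + 1)).card ≤ ((Finset.range (bd i)).filter S).card := by
      refine Finset.card_le_card_of_injOn (fun j => lr (cst j)) ?_ ?_
      · intro j hj
        simp only [Finset.coe_range, Set.mem_Iio] at hj
        simp only [Finset.coe_filter, Finset.mem_range, Set.mem_ofPred_eq]
        refine ⟨?_, (hlr _).2.2⟩
        have h1 := (hlr (cst j)).1
        have h2 : cst j ≤ ((List.range (i + 1)).map cst).sum :=
          List.single_le_sum (by simp) _ (List.mem_map.2 ⟨j, List.mem_range.2 hj, rfl⟩)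
        simp only [bd]
        omega
      · intro j _ k _ h
        apply hc
        have h' : lr (cst j) = lr (cst k) := h
        simp only
        rw [← (hlr (cst j)).2.1, h', (hlr (cst k)).2.1]
    simpa using this
  have hinf : (Set.ofPred S).Infinite := by
    intro hf
    exact absurd (Nat.count_le_card hf (bd hf.toFinset.card)) (not_le.2 (hbd _))
  let rep : ℕ → ℕ := fun i => fnd (bd i) fun n => least n && cnt n == i
  have prep : PR rep := PR.fnd pbd (PR.and (PR.comp' pleast (by fun_prop))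
    (PR.beq (PR.comp' pcnt (by fun_prop)) (by fun_prop)))
  have hrep : ∀ i, rep i = Nat.nth S i := by
    intro i
    refine fnd_eq (Nat.nth_lt_of_lt_count (hbd i)) ?_ fun j hj => ?_
    · have h1 : least (Nat.nth S i) = true := Nat.nth_mem_of_infinite hinf i
      simp [h1, hcnt, Nat.count_nth_of_infinite hinf]
    · rw [← Bool.not_eq_true]
      simp only [Bool.and_eq_true, beq_iff_eq, hcnt]
      rintro ⟨h1, h2⟩
      have := Nat.nth_count (p := S) h1
      rw [h2] at this
      omega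
  have hbij : Function.Bijective (fun i => v (Nat.nth S i)) := by
    constructor
    · intro i j h
      exact Nat.nth_injective hinf (hinj _ _ (Nat.nth_mem_of_infinite hinf i)
        (Nat.nth_mem_of_infinite hinf j) h)
    · intro x
      obtain ⟨n, rfl⟩ := hs x
      refine ⟨Nat.count S (lr n), ?_⟩
      simp only
      rw [Nat.nth_count (hlr n).2.2, (hlr n).2.1]
  refine ⟨Equiv.ofBijective _ hbij, fun n => cnt (lr n), rep, PR.comp' pcnt plr, prep, ?_, ?_⟩
  · intro n
    simp only [Equiv.ofBijective_apply, hcnt]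
    rw [Nat.nth_count (hlr n).2.2, (hlr n).2.1]
  · intro i
    simp only [Equiv.ofBijective_apply, hrep]

theorem present {T A : Type} [Primcodable T] [Inhabited T] (val : T → A)
    (hs : Function.Surjective val) (eqb : T → T → Bool)
    (heq : ∀ s t, eqb s t = true ↔ val s = val t) (peq : PR fun p : T × T => eqb p.1 p.2)
    (cst : ℕ → T) (hc : Function.Injective (fun n => val (cst n))) (pc : PR cst) :
    ∃ (e : ℕ ≃ A) (num : T → ℕ) (rep : ℕ → T), PR num ∧ PR rep ∧ (∀ t, e (num t) = val t) ∧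
      ∀ i, val (rep i) = e i := by
  obtain ⟨e, num, rep, p1, p2, h1, h2⟩ := present_nat (fun n => val (dec T n))
    (fun x => by
      obtain ⟨t, rfl⟩ := hs x
      exact ⟨encode t, by simp [dec_encode]⟩)
    (fun m n => eqb (dec T m) (dec T n)) (fun _ _ => heq _ _)
    (PR.comp' (g := fun p : ℕ × ℕ => (dec T p.1, dec T p.2)) peq (by fun_prop))
    (fun n => encode (cst n)) (by simpa [dec_encode] using hc) (PR.encode pc)
  refine ⟨e, fun t => num (encode t), fun i => dec T (rep i), PR.comp' p1 (by fun_prop),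
    PR.dec p2, fun t => ?_, h2⟩
  rw [h1, dec_encode]

end Pool.Agent.Lib.MP_9f1eae_lc
end

-- part Pool.Agent.Lib.MP_9f1eae_lc.Copy
section

namespace Pool.Agent.Lib.MP_9f1eae_lc

open Pool.Agent.Lib.MP_3d42d9_lc MvPolynomial

abbrev Pq := MvPolynomial ℕ ℚ

def va (n : ℕ) : ℕ := Nat.pair n 0
def vu (n s : ℕ) : ℕ := Nat.pair n (3 * s + 1)
def vv (n s : ℕ) : ℕ := Nat.pair n (3 * s + 2)
def vw (n s : ℕ) : ℕ := Nat.pair n (3 * s + 3)

noncomputable def y1 (n s : ℕ) : Pq := 1 + X (vw n s) * X (vu n s)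
noncomputable def y2 (n s : ℕ) : Pq := X (vu n s) * X (vv n s) + X (va n)
noncomputable def y3 (n s : ℕ) : Pq :=
  X (vv n s) + X (vw n s) * (X (vu n s) * X (vv n s) + X (va n))

theorem det_y (n s : ℕ) : y1 n s * y2 n s - y3 n s * X (vu n s) = X (va n) := by
  unfold y1 y2 y3; ring

open Classical in
noncomputable def beta (L : ℕ → ℕ → Prop) (i : ℕ) : Pq :=
  if h : ∃ s, L i.unpair.1 s then
    (if i.unpair.2 = 0 then y1 i.unpair.1 h.choose
    else if i.unpair.2 = 3 * h.choose + 2 then y2 i.unpair.1 h.choose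
    else if i.unpair.2 = 3 * h.choose + 3 then y3 i.unpair.1 h.choose else X i)
  else X i

section
variable {L : ℕ → ℕ → Prop}

theorem beta_of_not {n : ℕ} (h : ¬ ∃ s, L n s) (r : ℕ) :
    beta L (Nat.pair n r) = X (Nat.pair n r) := by
  simp only [beta, Nat.unpair_pair, h, dif_neg, not_false_eq_true]

theorem beta_of (hL : ∀ n s s', L n s → L n s' → s = s') {n s : ℕ} (h : L n s) (r : ℕ) :
    beta L (Nat.pair n r) = if r = 0 then y1 n s else if r = 3 * s + 2 then y2 n s
      else if r = 3 * s + 3 then y3 n s else X (Nat.pair n r) := by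
  have h' : ∃ s, L n s := ⟨s, h⟩
  have h2 : h'.choose = s := hL n _ _ h'.choose_spec h
  simp only [beta, Nat.unpair_pair, h', dif_pos, h2]

theorem beta_u (hL : ∀ n s s', L n s → L n s' → s = s') (n s : ℕ) :
    beta L (vu n s) = X (vu n s) := by
  by_cases h : ∃ s, L n s
  · obtain ⟨s', h⟩ := h
    rw [vu, beta_of hL h, if_neg (by omega), if_neg (by omega), if_neg (by omega)]
  · exact beta_of_not h _

theorem beta_v (hL : ∀ n s s', L n s → L n s' → s = s') {n s : ℕ} (hs : ¬ L n s) :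
    beta L (vv n s) = X (vv n s) := by
  by_cases h : ∃ s, L n s
  · obtain ⟨s', h⟩ := h
    have : s ≠ s' := by rintro rfl; exact hs h
    rw [vv, beta_of hL h, if_neg (by omega), if_neg (by omega), if_neg (by omega)]
  · exact beta_of_not h _

theorem beta_w (hL : ∀ n s s', L n s → L n s' → s = s') {n s : ℕ} (hs : ¬ L n s) :
    beta L (vw n s) = X (vw n s) := by
  by_cases h : ∃ s, L n s
  · obtain ⟨s', h⟩ := h
    have : s ≠ s' := by rintro rfl; exact hs h
    rw [vw, beta_of hL h, if_neg (by omega), if_neg (by omega), if_neg (by omega)]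
  · exact beta_of_not h _

theorem beta_a1 (hL : ∀ n s s', L n s → L n s' → s = s') {n s : ℕ} (h : L n s) :
    beta L (va n) = y1 n s := by
  rw [va, beta_of hL h, if_pos rfl]

theorem beta_v1 (hL : ∀ n s s', L n s → L n s' → s = s') {n s : ℕ} (h : L n s) :
    beta L (vv n s) = y2 n s := by
  rw [vv, beta_of hL h, if_neg (by omega), if_pos rfl]

theorem beta_w1 (hL : ∀ n s s', L n s → L n s' → s = s') {n s : ℕ} (h : L n s) :
    beta L (vw n s) = y3 n s := by
  rw [vw, beta_of hL h, if_neg (by omega), if_neg (by omega), if_pos rfl]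

open Classical in
noncomputable def eta (L : ℕ → ℕ → Prop) (ξ : ℕ → ℚ) (i : ℕ) : ℚ :=
  if h : ∃ s, L i.unpair.1 s then
    (if i.unpair.2 = 0 then
      ξ (va i.unpair.1) * ξ (vv i.unpair.1 h.choose) -
        ξ (vw i.unpair.1 h.choose) * ξ (vu i.unpair.1 h.choose)
    else if i.unpair.2 = 3 * h.choose + 2 then
      (ξ (vv i.unpair.1 h.choose) - (ξ (va i.unpair.1) * ξ (vv i.unpair.1 h.choose) -
        ξ (vw i.unpair.1 h.choose) * ξ (vu i.unpair.1 h.choose))) / ξ (vu i.unpair.1 h.choose)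
    else if i.unpair.2 = 3 * h.choose + 3 then
      (ξ (va i.unpair.1) - 1) / ξ (vu i.unpair.1 h.choose) else ξ i)
  else ξ i

theorem eta_of (hL : ∀ n s s', L n s → L n s' → s = s') (ξ : ℕ → ℚ) {n s : ℕ} (h : L n s)
    (r : ℕ) : eta L ξ (Nat.pair n r) =
      if r = 0 then ξ (va n) * ξ (vv n s) - ξ (vw n s) * ξ (vu n s)
      else if r = 3 * s + 2 then
        (ξ (vv n s) - (ξ (va n) * ξ (vv n s) - ξ (vw n s) * ξ (vu n s))) / ξ (vu n s)
      else if r = 3 * s + 3 then (ξ (va n) - 1) / ξ (vu n s) else ξ (Nat.pair n r) := by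
  have h' : ∃ s, L n s := ⟨s, h⟩
  have h2 : h'.choose = s := hL n _ _ h'.choose_spec h
  simp only [eta, Nat.unpair_pair, h', dif_pos, h2]

theorem eval_eta (hL : ∀ n s s', L n s → L n s' → s = s') (ξ : ℕ → ℚ) (hξ : ∀ i, ξ i ≠ 0)
    (i : ℕ) : eval (eta L ξ) (beta L i) = ξ i := by
  obtain ⟨n, r, rfl⟩ : ∃ n r, i = Nat.pair n r := ⟨_, _, (Nat.pair_unpair i).symm⟩
  by_cases h : ∃ s, L n s
  · obtain ⟨s, h⟩ := h
    have ha : eta L ξ (va n) = ξ (va n) * ξ (vv n s) - ξ (vw n s) * ξ (vu n s) := by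
      rw [va, eta_of hL ξ h, if_pos rfl]; rfl
    have hu : eta L ξ (vu n s) = ξ (vu n s) := by
      rw [vu, eta_of hL ξ h, if_neg (by omega), if_neg (by omega), if_neg (by omega)]
    have hv : eta L ξ (vv n s) =
        (ξ (vv n s) - (ξ (va n) * ξ (vv n s) - ξ (vw n s) * ξ (vu n s))) / ξ (vu n s) := by
      conv_lhs => rw [vv, eta_of hL ξ h, if_neg (by omega), if_pos rfl]
    have hw : eta L ξ (vw n s) = (ξ (va n) - 1) / ξ (vu n s) := by
      conv_lhs => rw [vw, eta_of hL ξ h, if_neg (by omega), if_neg (by omega), if_pos rfl]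
    have h0 := hξ (vu n s)
    rw [beta_of hL h]
    split_ifs with h1 h2 h3
    · subst h1
      simp only [y1, map_add, map_one, map_mul, eval_X, hu, hw]
      field_simp
      simp [va]
    · subst h2
      simp only [y2, map_add, map_mul, eval_X, hu, hv, ha]
      field_simp
      simp [vv]
    · subst h3
      simp only [y3, map_add, map_mul, eval_X, hu, hv, ha, hw]
      rw [← vw]
      field_simp
      ring
    · rw [eval_X, eta_of hL ξ h, if_neg h1, if_neg h2, if_neg h3]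
  · rw [beta_of_not h, eval_X]
    simp only [eta, Nat.unpair_pair, h, dif_neg, not_false_eq_true]

theorem aeval_beta_injective (hL : ∀ n s s', L n s → L n s' → s = s') :
    Function.Injective (aeval (beta L) : Pq →ₐ[ℚ] Pq) := by
  rw [injective_iff_map_eq_zero]
  intro G hG
  refine funext_set (fun _ => ({0}ᶜ : Set ℚ))
    (fun _ => (Set.finite_singleton 0).infinite_compl) fun ξ hξ => ?_
  have hξ' : ∀ i, ξ i ≠ 0 := fun i => hξ i trivial
  have h1 : eval (eta L ξ) (aeval (beta L) G) = eval ξ G := by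
    have : (eval (eta L ξ)).comp (aeval (beta L) : Pq →ₐ[ℚ] Pq).toRingHom = eval ξ := by
      ext1
      · ext; simp
      · simp [eval_eta hL ξ hξ']
    exact congrArg (fun φ : Pq →+* ℚ => φ G) this
  rw [← h1, hG]
  simp

end

def genAux (rel : ℕ → ℕ → ℕ → Bool) (n s k t : ℕ) : LP :=
  bif k == 0 then [[va n]] else bif k == 1 then [[vu n s]]
  else bif k == 2 then (bif rel n s t then [[vv n s]] else [])
  else bif k == 3 then (bif rel n s t then [[vw n s]] else [])
  else bif k == 4 then [[], [vw n s, vu n s]]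
  else bif k == 5 then [[vu n s, vv n s], [va n]]
  else [[vv n s], [vw n s, vu n s, vv n s], [vw n s, va n]]

def gen (rel : ℕ → ℕ → ℕ → Bool) (j : ℕ) : LP :=
  genAux rel j.unpair.1 j.unpair.2.unpair.1 j.unpair.2.unpair.2.unpair.1
    j.unpair.2.unpair.2.unpair.2

def gi (n s k t : ℕ) : ℕ := Nat.pair n (Nat.pair s (Nat.pair k t))

theorem gen_gi (rel : ℕ → ℕ → ℕ → Bool) (n s k t : ℕ) :
    gen rel (gi n s k t) = genAux rel n s k t := by
  simp [gen, gi]

theorem pr_gen {rel : ℕ → ℕ → ℕ → Bool} (prel : PR fun p : ℕ × ℕ × ℕ => rel p.1 p.2.1 p.2.2) :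
    PR (gen rel) := by
  have h : PR (fun j : ℕ => rel j.unpair.1 j.unpair.2.unpair.1 j.unpair.2.unpair.2.unpair.2) :=
    PR.comp' (g := fun j : ℕ => (j.unpair.1, j.unpair.2.unpair.1, j.unpair.2.unpair.2.unpair.2))
      prel (by fun_prop)
  unfold gen genAux va vu vv vw
  fun_prop

theorem exists_copy (rel : ℕ → ℕ → ℕ → Bool)
    (prel : PR fun p : ℕ × ℕ × ℕ => rel p.1 p.2.1 p.2.2)
    (hL : ∀ n s s', (∀ t, rel n s t = false) → (∀ t, rel n s' t = false) → s = s') :
    ∃ (e : ℕ ≃ Pq) (add mul : ℕ → ℕ → ℕ) (α : ℕ → ℕ),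
      PR (fun p : ℕ × ℕ => add p.1 p.2) ∧ PR (fun p : ℕ × ℕ => mul p.1 p.2) ∧ PR α ∧
      (∀ i j, e (add i j) = e i + e j) ∧ (∀ i j, e (mul i j) = e i * e j) ∧
      ∀ n, e (α n) ≠ 0 ∧ ((¬ ∃ s, ∀ t, rel n s t = false) → ∃ i, e (α n) = X i) ∧
        ((∃ s, ∀ t, rel n s t = false) →
          ∃ i1 i2 i3 i4, e (α n) = X i1 * X i2 - X i3 * X i4) := by
  set L : ℕ → ℕ → Prop := fun n s => ∀ t, rel n s t = false with hLdef
  set ι : Pq →ₐ[ℚ] Pq := aeval (beta L) with hι
  have hinj : Function.Injective ι := aeval_beta_injective hL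
  have hιX : ∀ i, ι (X i) = beta L i := fun i => aeval_X _ _
  have hmem : ∀ i, beta L i ∈ ι.range := fun i => ⟨X i, hιX i⟩
  have hu : ∀ n s, X (vu n s) ∈ ι.range := fun n s => beta_u hL n s ▸ hmem _
  have hv : ∀ n s, ¬ L n s → X (vv n s) ∈ ι.range := fun n s h => beta_v hL h ▸ hmem _
  have hw : ∀ n s, ¬ L n s → X (vw n s) ∈ ι.range := fun n s h => beta_w hL h ▸ hmem _
  have ha : ∀ n, X (va n) ∈ ι.range := by
    intro n
    by_cases h : ∃ s, L n s
    · obtain ⟨s, h⟩ := h
      rw [← det_y n s]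
      exact sub_mem (mul_mem (beta_a1 hL h ▸ hmem _) (beta_v1 hL h ▸ hmem _))
        (mul_mem (beta_w1 hL h ▸ hmem _) (hu n s))
    · exact (beta_of_not h 0) ▸ hmem (va n)
  have h1 : ∀ n s, y1 n s ∈ ι.range := by
    intro n s
    by_cases h : L n s
    · exact beta_a1 hL h ▸ hmem _
    · exact add_mem (one_mem _) (mul_mem (hw n s h) (hu n s))
  have h2 : ∀ n s, y2 n s ∈ ι.range := by
    intro n s
    by_cases h : L n s
    · exact beta_v1 hL h ▸ hmem _
    · exact add_mem (mul_mem (hu n s) (hv n s h)) (ha n)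
  have h3 : ∀ n s, y3 n s ∈ ι.range := by
    intro n s
    by_cases h : L n s
    · exact beta_w1 hL h ▸ hmem _
    · exact add_mem (hv n s h) (mul_mem (hw n s h) (add_mem (mul_mem (hu n s) (hv n s h)) (ha n)))
  have e0 : ∀ n s t, ev (X : ℕ → Pq) (genAux rel n s 0 t) = X (va n) := by
    intro n s t; simp [genAux]
  have e1 : ∀ n s t, ev (X : ℕ → Pq) (genAux rel n s 1 t) = X (vu n s) := by
    intro n s t; simp [genAux]
  have e2 : ∀ n s t, ev (X : ℕ → Pq) (genAux rel n s 2 t) =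
      if rel n s t = true then X (vv n s) else 0 := by
    intro n s t; cases h : rel n s t <;> simp [genAux, h]
  have e3 : ∀ n s t, ev (X : ℕ → Pq) (genAux rel n s 3 t) =
      if rel n s t = true then X (vw n s) else 0 := by
    intro n s t; cases h : rel n s t <;> simp [genAux, h]
  have e4 : ∀ n s t, ev (X : ℕ → Pq) (genAux rel n s 4 t) = y1 n s := by
    intro n s t; simp [genAux, y1]
  have e5 : ∀ n s t, ev (X : ℕ → Pq) (genAux rel n s 5 t) = y2 n s := by
    intro n s t; simp [genAux, y2]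
  have e6 : ∀ n s k t, ev (X : ℕ → Pq) (genAux rel n s (k + 6) t) = y3 n s := by
    intro n s k t; simp [genAux, y3]; ring
  have hgen : ∀ j, ev (X : ℕ → Pq) (gen rel j) ∈ ι.range := by
    intro j
    unfold gen
    generalize j.unpair.1 = n
    generalize j.unpair.2.unpair.1 = s
    generalize j.unpair.2.unpair.2.unpair.1 = k
    generalize j.unpair.2.unpair.2.unpair.2 = t
    match k with
    | 0 => rw [e0]; exact ha n
    | 1 => rw [e1]; exact hu n s
    | 2 =>
      rw [e2]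
      split_ifs with h
      · exact hv n s fun h' => by simp [h' t] at h
      · exact zero_mem _
    | 3 =>
      rw [e3]
      split_ifs with h
      · exact hw n s fun h' => by simp [h' t] at h
      · exact zero_mem _
    | 4 => rw [e4]; exact h1 n s
    | 5 => rw [e5]; exact h2 n s
    | k + 6 => rw [e6]; exact h3 n s
  choose γ hγ using hgen
  have hγ' : ∀ j, ι (γ j) = ev (X : ℕ → Pq) (gen rel j) := hγ
  have hcov : ∀ i, ∃ j, ev (X : ℕ → Pq) (gen rel j) = beta L i := by
    intro i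
    obtain ⟨n, r, rfl⟩ : ∃ n r, i = Nat.pair n r := ⟨_, _, (Nat.pair_unpair i).symm⟩
    obtain rfl | ⟨s, rfl | rfl | rfl⟩ :
        r = 0 ∨ ∃ s, r = 3 * s + 1 ∨ r = 3 * s + 2 ∨ r = 3 * s + 3 := by
      rcases Nat.eq_zero_or_pos r with h | h
      · exact Or.inl h
      · exact Or.inr ⟨(r - 1) / 3, by omega⟩
    · by_cases h : ∃ s, L n s
      · obtain ⟨s, h⟩ := h
        exact ⟨gi n s 4 0, by rw [gen_gi, e4]; exact (beta_a1 hL h).symm⟩
      · exact ⟨gi n 0 0 0, by rw [gen_gi, e0]; exact (beta_of_not h 0).symm⟩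
    · exact ⟨gi n s 1 0, by rw [gen_gi, e1]; exact (beta_u hL n s).symm⟩
    · by_cases h : L n s
      · exact ⟨gi n s 5 0, by rw [gen_gi, e5]; exact (beta_v1 hL h).symm⟩
      · obtain ⟨t, ht⟩ : ∃ t, rel n s t = true := by simpa [L] using h
        exact ⟨gi n s 2 t, by rw [gen_gi, e2, if_pos ht]; exact (beta_v hL h).symm⟩
    · by_cases h : L n s
      · exact ⟨gi n s 6 0, by rw [gen_gi, e6 n s 0]; exact (beta_w1 hL h).symm⟩
      · obtain ⟨t, ht⟩ : ∃ t, rel n s t = true := by simpa [L] using h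
        exact ⟨gi n s 3 t, by rw [gen_gi, e3, if_pos ht]; exact (beta_w hL h).symm⟩
  have hsurj : Function.Surjective (val γ) := by
    intro x
    have hx : x ∈ Algebra.adjoin ℚ (γ '' Set.univ) := by
      refine Algebra.adjoin_mono ?_ ((adjoin_range_X (R := ℚ) (σ := ℕ)).ge Algebra.mem_top)
      rintro _ ⟨i, rfl⟩
      obtain ⟨j, hj⟩ := hcov i
      exact ⟨j, trivial, hinj (by rw [hγ', hj, hιX])⟩
    obtain ⟨t, ht, -⟩ := exists_term γ Set.univ hx
    exact ⟨t, ht⟩
  have heq : ∀ s t, eqT (gen rel) s t = true ↔ val γ s = val γ t := by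
    intro s t
    rw [eqT, eqP_iff, val_eq_iff, ← hinj.eq_iff (a := ev γ _), map_ev ι, map_ev ι, ev_subst,
      ev_subst]
    simp only [hγ']
  obtain ⟨e, num, rep, pnum, prep, hnum, hrep⟩ := present (val γ) hsurj (eqT (gen rel)) heq
    (pr_eqT (pr_gen prel)) (fun n => (0, scal n [[]], [])) (by
      intro m n h
      simpa [val] using h) (by fun_prop)
  refine ⟨e, fun i j => num (addT (rep i) (rep j)), fun i j => num (mulT (rep i) (rep j)),
    fun n => num (0, [[gi n 0 0 0]], []), ?_, ?_, ?_, ?_, ?_, ?_⟩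
  · exact PR.comp' pnum (PR.addT (PR.comp' prep (by fun_prop)) (PR.comp' prep (by fun_prop)))
  · exact PR.comp' pnum (PR.mulT (PR.comp' prep (by fun_prop)) (PR.comp' prep (by fun_prop)))
  · refine PR.comp' pnum ?_
    unfold gi
    fun_prop
  · intro i j
    rw [hnum, val_addT, hrep, hrep]
  · intro i j
    rw [hnum, val_mulT, hrep, hrep]
  · intro n
    have hα : ι (e (num (0, [[gi n 0 0 0]], []))) = X (va n) := by
      rw [hnum]
      simp [val, hγ', gen_gi, e0]
    refine ⟨?_, fun h => ⟨va n, hinj ?_⟩, ?_⟩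
    · intro h
      rw [h, map_zero] at hα
      exact X_ne_zero _ hα.symm
    · rw [hα, hιX]
      exact (beta_of_not h 0).symm
    · rintro ⟨s, h⟩
      refine ⟨va n, vv n s, vw n s, vu n s, hinj ?_⟩
      rw [hα, map_sub, map_mul, map_mul, hιX, hιX, hιX, hιX, beta_a1 hL h, beta_v1 hL h,
        beta_w1 hL h, beta_u hL, det_y]

end Pool.Agent.Lib.MP_9f1eae_lc
end

-- part Pool.Agent.Lib.MP_9f1eae_lc.Cert
section

namespace Pool.Agent.Lib.MP_9f1eae_lc

open Pool.Agent.Lib.MP_3d42d9_lc MvPolynomial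

structure Ops where
  add : ℕ → ℕ → ℕ
  mul : ℕ → ℕ → ℕ
  z : ℕ
  o : ℕ

namespace Ops

variable (O : Ops)

def evN (f : ℕ → ℕ) (L : LP) : ℕ :=
  L.foldr (fun μ acc => O.add (μ.foldr (fun j a => O.mul (f j) a) O.o) acc) O.z

def maps (f : ℕ → ℕ) (t : Tm) (y y' : ℕ) : Bool :=
  (O.evN (fun j => j) t.2.1 == O.evN (fun j => j) (scal (t.1 + 1) [[y]] ++ t.2.2)) &&
    (O.evN f t.2.1 == O.add (O.evN (fun j => j) (scal (t.1 + 1) [[y']])) (O.evN f t.2.2))

def chkP (a : ℕ) (c : List ℕ × Tm) : Bool :=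
  O.maps (fun b => O.add b (O.mul a (c.1.getD b 0))) c.2 a (O.add a a)

abbrev CN := List ℕ × (ℕ × Tm) × (ℕ × Tm) × (ℕ × Tm) × (ℕ × Tm)

def chkN (a : ℕ) (c : CN) : Bool :=
  (O.add a (O.mul c.2.2.2.1.1 c.2.2.2.2.1) == O.mul c.2.1.1 c.2.2.1.1) &&
    (O.maps (fun b => c.1.getD b 0) c.2.1.2 c.2.1.1 O.z &&
    (O.maps (fun b => c.1.getD b 0) c.2.2.1.2 c.2.2.1.1 O.z &&
    (O.maps (fun b => c.1.getD b 0) c.2.2.2.1.2 c.2.2.2.1.1 O.z &&
    O.maps (fun b => c.1.getD b 0) c.2.2.2.2.2 c.2.2.2.2.1 O.z)))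

def suppN (c : CN) : List ℕ :=
  supp c.2.1.2 ++ (supp c.2.2.1.2 ++ (supp c.2.2.2.1.2 ++ supp c.2.2.2.2.2))

structure Eff : Prop where
  add : PR (fun p : ℕ × ℕ => O.add p.1 p.2)
  mul : PR (fun p : ℕ × ℕ => O.mul p.1 p.2)

structure Sound (e : ℕ ≃ Pq) : Prop where
  add : ∀ i j, e (O.add i j) = e i + e j
  mul : ∀ i j, e (O.mul i j) = e i * e j
  z : e O.z = 0
  o : e O.o = 1

variable {O}

section
variable {α : Type} [Primcodable α]

theorem Eff.add' (h : O.Eff) {f g : α → ℕ} (hf : PR f) (hg : PR g) :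
    PR (fun a => O.add (f a) (g a)) := PR.comp' (g := fun a => (f a, g a)) h.add (by fun_prop)

theorem Eff.mul' (h : O.Eff) {f g : α → ℕ} (hf : PR f) (hg : PR g) :
    PR (fun a => O.mul (f a) (g a)) := PR.comp' (g := fun a => (f a, g a)) h.mul (by fun_prop)

theorem Eff.evN (h : O.Eff) {f : α → ℕ → ℕ} {L : α → LP}
    (hf : PR (fun p : α × ℕ => f p.1 p.2)) (hL : PR L) : PR (fun a => O.evN (f a) (L a)) := by
  unfold Ops.evN
  refine PR.foldr hL (by fun_prop) (h.add' ?_ (by fun_prop))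
  refine PR.foldr (by fun_prop) (by fun_prop) (h.mul' ?_ (by fun_prop))
  exact PR.comp' (g := fun p : (α × List ℕ × ℕ) × ℕ × ℕ => (p.1.1, p.2.1)) hf (by fun_prop)

theorem Eff.maps (h : O.Eff) {f : α → ℕ → ℕ} {t : α → Tm} {y y' : α → ℕ}
    (hf : PR (fun p : α × ℕ => f p.1 p.2)) (ht : PR t) (hy : PR y) (hy' : PR y') :
    PR (fun a => O.maps (f a) (t a) (y a) (y' a)) := by
  unfold Ops.maps
  refine PR.and (PR.beq (h.evN (f := fun _ j => j) (by fun_prop) (by fun_prop))
    (h.evN (f := fun _ j => j) (by fun_prop) (by fun_prop)))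
    (PR.beq (h.evN hf (by fun_prop)) (h.add' (h.evN (f := fun _ j => j) (by fun_prop)
      (by fun_prop)) (h.evN hf (by fun_prop))))

theorem pr_getD {f : α → List ℕ} {g : α → ℕ} (hf : PR f) (hg : PR g) :
    PR (fun a => (f a).getD (g a) 0) := (Primrec.list_getD 0).comp hf hg

end

theorem Eff.chkP (h : O.Eff) : PR (fun p : ℕ × List ℕ × Tm => O.chkP p.1 p.2) := by
  unfold Ops.chkP
  exact h.maps (h.add' (by fun_prop) (h.mul' (by fun_prop) (pr_getD (by fun_prop) (by fun_prop))))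
    (by fun_prop) (by fun_prop) (h.add' (by fun_prop) (by fun_prop))

theorem Eff.chkN (h : O.Eff) : PR (fun p : ℕ × CN => O.chkN p.1 p.2) := by
  unfold Ops.chkN
  have hf : PR (fun p : (ℕ × CN) × ℕ => p.1.2.1.getD p.2 0) :=
    pr_getD (by fun_prop) (by fun_prop)
  refine PR.and (PR.beq (h.add' (by fun_prop) (h.mul' (by fun_prop) (by fun_prop)))
    (h.mul' (by fun_prop) (by fun_prop))) (PR.and ?_ (PR.and ?_ (PR.and ?_ ?_))) <;>
  exact h.maps (f := fun (p : ℕ × CN) b => p.2.1.getD b 0) hf (by fun_prop) (by fun_prop)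
    (by fun_prop)

theorem pr_suppN : PR suppN := by
  unfold suppN; fun_prop

variable {e : ℕ ≃ Pq}

theorem Sound.evN (h : O.Sound e) (f : ℕ → ℕ) (L : LP) :
    e (O.evN f L) = ev (fun j => e (f j)) L := by
  unfold Ops.evN
  induction L with
  | nil => simpa using h.z
  | cons μ L ih =>
    rw [List.foldr_cons, h.add, ih, ev_cons]
    congr 1
    induction μ with
    | nil => simpa using h.o
    | cons j μ ih => simp [h.mul, ih]

theorem Sound.maps (h : O.Sound e) (f : ℕ → ℕ) (t : Tm) (y y' : ℕ) :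
    O.maps f t y y' = true ↔ val e t = e y ∧ val (fun j => e (f j)) t = e y' := by
  unfold Ops.maps
  rw [Bool.and_eq_true, beq_iff_eq, beq_iff_eq, ← e.injective.eq_iff, ← e.injective.eq_iff (a :=
    O.evN f t.2.1), h.add, h.evN, h.evN, h.evN, h.evN, h.evN]
  simp only [ev_append, ev_scal, ev_cons, List.map_cons, List.map_nil, List.prod_cons,
    List.prod_nil, mul_one, ev_nil, add_zero]
  push_cast
  have h1 := mul_val e t
  have h2 := mul_val (fun j => e (f j)) t
  refine and_congr ⟨fun h => cancel_succ t.1 ?_, fun h => ?_⟩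
    ⟨fun h => cancel_succ t.1 ?_, fun h => ?_⟩
  · linear_combination h1 + h
  · rw [h] at h1; linear_combination -h1
  · linear_combination h2 + h
  · rw [h] at h2; linear_combination -h2

end Ops

theorem map_val (φ : Pq →ₐ[ℚ] Pq) (f g : ℕ → Pq) (t : Tm) (h : ∀ j ∈ supp t, φ (f j) = g j) :
    φ (val f t) = val g t := by
  unfold val
  rw [map_smul, map_sub, map_ev, map_ev]
  congr 2
  · exact ev_congr fun μ hμ j hj => h j (mem_supp.2 (Or.inl ⟨μ, hμ, hj⟩))
  · exact ev_congr fun μ hμ j hj => h j (mem_supp.2 (Or.inr ⟨μ, hμ, hj⟩))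

theorem exists_hom {e : ℕ ≃ Pq} {B : Set ℕ} (hi : AlgebraicIndependent ℚ (fun b : B => e b))
    (hg : Algebra.adjoin ℚ (e '' B) = ⊤) (g : ℕ → Pq) :
    ∃ φ : Pq →ₐ[ℚ] Pq, ∀ b ∈ B, φ (e b) = g b := by
  have hb : Function.Bijective (aeval (fun b : B => e b) : MvPolynomial B ℚ →ₐ[ℚ] Pq) := by
    refine ⟨hi, ?_⟩
    rw [← AlgHom.range_eq_top, ← Algebra.adjoin_range_eq_range_aeval, ← hg]
    congr 1
    exact (Set.image_eq_range _ _).symm
  refine ⟨(aeval fun b : B => g b).comp (AlgEquiv.ofBijective _ hb).symm.toAlgHom, ?_⟩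
  intro b hbB
  have : (AlgEquiv.ofBijective _ hb).symm (e b) = X ⟨b, hbB⟩ := by
    rw [AlgEquiv.symm_apply_eq]
    simp
  change aeval _ ((AlgEquiv.ofBijective _ hb).symm (e b)) = _
  rw [this, aeval_X]

theorem exists_list (h : ℕ → ℕ) (S : List ℕ) : ∃ H : List ℕ, ∀ b ∈ S, H.getD b 0 = h b := by
  refine ⟨(List.range (S.sum + 1)).map h, fun b hb => ?_⟩
  have : b ≤ S.sum := List.single_le_sum (by simp) _ hb
  simp [List.getD_eq_getElem?_getD, List.getElem?_range (Nat.lt_succ_of_le this)]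

theorem cong_mod (φ : Pq →ₐ[ℚ] Pq) (a : Pq) {S : Set Pq} (hg : Algebra.adjoin ℚ S = ⊤)
    (h : ∀ x ∈ S, ∃ y, φ x = x + a * y) (x : Pq) : ∃ y, φ x = x + a * y := by
  have hx : x ∈ Algebra.adjoin ℚ S := hg ▸ Algebra.mem_top
  induction hx using Algebra.adjoin_induction with
  | mem x hx => exact h x hx
  | algebraMap r => exact ⟨0, by simp⟩
  | add x y _ _ hx hy =>
    obtain ⟨u, hu⟩ := hx
    obtain ⟨v, hv⟩ := hy
    exact ⟨u + v, by rw [map_add, hu, hv]; ring⟩
  | mul x y _ _ hx hy =>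
    obtain ⟨u, hu⟩ := hx
    obtain ⟨v, hv⟩ := hy
    exact ⟨u * y + x * v + a * u * v, by rw [map_mul, hu, hv]; ring⟩

section
variable {O : Ops} {e : ℕ ≃ Pq} {B : Set ℕ}

theorem certP_complete (hO : O.Sound e) (hg : Algebra.adjoin ℚ (e '' B) = ⊤) {a i : ℕ}
    (ha : e a = X i) : ∃ c, O.chkP a c = true ∧ ∀ b ∈ supp c.2, b ∈ B := by
  classical
  let φ : Pq →ₐ[ℚ] Pq := aeval fun j => if j = i then X i + X i else X j
  have h1 : ∀ x, ∃ y, φ x = x + X i * y := by
    refine cong_mod φ (X i) (adjoin_range_X (R := ℚ) (σ := ℕ)) ?_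
    rintro _ ⟨j, rfl⟩
    by_cases hj : j = i
    · exact ⟨1, by simp [φ, hj]⟩
    · exact ⟨0, by simp [φ, hj]⟩
  choose h hh using h1
  obtain ⟨t, ht, hs⟩ := exists_term e B (x := e a) (hg ▸ Algebra.mem_top)
  obtain ⟨H, hH⟩ := exists_list (fun b => e.symm (h (e b))) (supp t)
  refine ⟨(H, t), ?_, hs⟩
  rw [Ops.chkP, hO.maps]
  refine ⟨ht, ?_⟩
  rw [← map_val φ e _ t, ht, hO.add, ha]
  · simp [φ]
  · intro j hj
    rw [hO.add, hO.mul, hH j hj, hh, ha, Equiv.apply_symm_apply]

theorem certP_sound (hO : O.Sound e) (hi : AlgebraicIndependent ℚ (fun b : B => e b))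
    (hg : Algebra.adjoin ℚ (e '' B) = ⊤) {a i1 i2 i3 i4 : ℕ} (h0 : e a ≠ 0)
    (ha : e a = X i1 * X i2 - X i3 * X i4) {c : List ℕ × Tm} (hc : O.chkP a c = true)
    (hs : ∀ b ∈ supp c.2, b ∈ B) : False := by
  rw [Ops.chkP, hO.maps] at hc
  obtain ⟨φ, hφ⟩ := exists_hom hi hg fun b => e (O.add b (O.mul a (c.1.getD b 0)))
  have h1 : φ (e a) = e a + e a := by
    rw [← hO.add, ← hc.2, ← map_val φ e _ c.2 fun j hj => hφ j (hs j hj), hc.1]
  have h2 := cong_mod φ (e a) hg (by
    rintro _ ⟨b, hb, rfl⟩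
    exact ⟨_, by rw [hφ b hb, hO.add, hO.mul]⟩)
  obtain ⟨u1, hu1⟩ := h2 (X i1)
  obtain ⟨u2, hu2⟩ := h2 (X i2)
  obtain ⟨u3, hu3⟩ := h2 (X i3)
  obtain ⟨u4, hu4⟩ := h2 (X i4)
  have h3 : φ (e a) = (X i1 + e a * u1) * (X i2 + e a * u2) -
      (X i3 + e a * u3) * (X i4 + e a * u4) := by
    conv_lhs => rw [ha, map_sub, map_mul, map_mul, hu1, hu2, hu3, hu4]
  have h4 : e a * (X i1 * u2 + u1 * X i2 - X i3 * u4 - u3 * X i4 +
      e a * (u1 * u2 - u3 * u4)) = e a * 1 := by
    linear_combination h1 - h3 + ha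
  have h5 := congrArg constantCoeff (mul_left_cancel₀ h0 h4)
  rw [ha] at h5
  simp at h5

theorem certN_complete (hO : O.Sound e) (hg : Algebra.adjoin ℚ (e '' B) = ⊤)
    {a i1 i2 i3 i4 : ℕ} (ha : e a = X i1 * X i2 - X i3 * X i4) :
    ∃ c, O.chkN a c = true ∧ ∀ b ∈ Ops.suppN c, b ∈ B := by
  let φ : Pq →ₐ[ℚ] Pq := aeval fun _ => 0
  have hT : ∀ x : Pq, ∃ t : Tm, val e t = x ∧ ∀ j ∈ supp t, j ∈ B := fun x =>
    exists_term e B (hg ▸ Algebra.mem_top)
  choose T hT hS using hT
  obtain ⟨H, hH⟩ := exists_list (fun b => e.symm (φ (e b)))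
    (supp (T (X i1)) ++ (supp (T (X i2)) ++ (supp (T (X i3)) ++ supp (T (X i4)))))
  have key : ∀ i, (∀ b ∈ supp (T (X i)), H.getD b 0 = e.symm (φ (e b))) →
      O.maps (fun b => H.getD b 0) (T (X i)) (e.symm (X i)) O.z = true := by
    intro i hi
    rw [hO.maps, hT, ← map_val φ e _ _ fun j hj => ?_, hT, hO.z]
    · simp [φ]
    · rw [hi j hj, Equiv.apply_symm_apply]
  refine ⟨(H, (e.symm (X i1), T (X i1)), (e.symm (X i2), T (X i2)), (e.symm (X i3), T (X i3)),
    (e.symm (X i4), T (X i4))), ?_, ?_⟩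
  · simp only [Ops.chkN, Bool.and_eq_true, beq_iff_eq]
    refine ⟨e.injective ?_, key i1 fun b hb => hH b (by simp [hb]),
      key i2 fun b hb => hH b (by simp [hb]), key i3 fun b hb => hH b (by simp [hb]),
      key i4 fun b hb => hH b (by simp [hb])⟩
    simp [hO.add, hO.mul, ha]
  · intro b hb
    simp only [Ops.suppN, List.mem_append] at hb
    rcases hb with h | h | h | h <;> exact hS _ b h

theorem certN_sound (hO : O.Sound e) (hi : AlgebraicIndependent ℚ (fun b : B => e b))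
    (hg : Algebra.adjoin ℚ (e '' B) = ⊤) {a i : ℕ} (ha : e a = X i) {c : Ops.CN}
    (hc : O.chkN a c = true) (hs : ∀ b ∈ Ops.suppN c, b ∈ B) : False := by
  obtain ⟨H, ⟨y1, t1⟩, ⟨y2, t2⟩, ⟨y3, t3⟩, ⟨y4, t4⟩⟩ := c
  simp only [Ops.chkN, Bool.and_eq_true, beq_iff_eq] at hc
  simp only [Ops.suppN, List.mem_append] at hs
  obtain ⟨φ, hφ⟩ := exists_hom hi hg fun b => e (H.getD b 0)
  have key : ∀ t y, O.maps (fun b => H.getD b 0) t y O.z = true → (∀ b ∈ supp t, b ∈ B) →
      φ (e y) = 0 := by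
    intro t y h1 h2
    rw [hO.maps] at h1
    rw [← h1.1, map_val φ e _ t fun j hj => hφ j (h2 j hj), h1.2, hO.z]
  obtain ⟨h0, h1, h2, h3, h4⟩ := hc
  have k1 := key _ _ h1 fun b hb => hs b (by simp [hb])
  have k2 := key _ _ h2 fun b hb => hs b (by simp [hb])
  have k3 := key _ _ h3 fun b hb => hs b (by simp [hb])
  have k4 := key _ _ h4 fun b hb => hs b (by simp [hb])
  have h5 := congrArg (fun j => φ (pderiv i (e j))) h0
  simp only [hO.add, hO.mul, ha, map_add, Derivation.leibniz, smul_eq_mul, map_mul, k1, k2, k3,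
    k4, pderiv_X_self, map_one, zero_mul, add_zero] at h5
  exact one_ne_zero h5

end

end Pool.Agent.Lib.MP_9f1eae_lc
end

-- part Pool.Agent.Lib.MP_9f1eae_lc.Comp
section

namespace Pool.Agent.Lib.MP_9f1eae_lc

open Pool.Agent.Lib.MP_3d42d9_lc Encodable Denumerable Nat.Partrec Nat.Partrec.Code

def R0 (n a b : ℕ) : Bool :=
  (evaln b (ofNat Code n.unpair.1) (Nat.pair n.unpair.2 a)).isSome

theorem pr_R0 : PR (fun p : ℕ × ℕ × ℕ => R0 p.1 p.2.1 p.2.2) := by
  have h1 : PR (fun p : ℕ × ℕ × ℕ => ofNat Code p.1.unpair.1) :=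
    (Primrec.ofNat Code).comp (PR.primrec (by fun_prop))
  unfold R0
  exact PR.isSome (PR.comp' (g := fun p : ℕ × ℕ × ℕ =>
    ((p.2.2, ofNat Code p.1.unpair.1), Nat.pair p.1.unpair.2 p.2.1)) primrec_evaln (by fun_prop))

@[fun_prop] theorem PR.R0 {α : Type} [Primcodable α] {f g h : α → ℕ} (hf : PR f) (hg : PR g)
    (hh : PR h) : PR (fun a => R0 (f a) (g a) (h a)) :=
  PR.comp' (g := fun a => (f a, g a, h a)) pr_R0 (by fun_prop)

def PP (n : ℕ) : Prop := ∀ a, ∃ b, R0 n a b = true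

def W (n a t : ℕ) : Bool := (List.range a).all fun a' => (List.range t).any fun b => R0 n a' b

@[fun_prop] theorem PR.W {α : Type} [Primcodable α] {f g h : α → ℕ} (hf : PR f) (hg : PR g)
    (hh : PR h) : PR (fun a => W (f a) (g a) (h a)) := by
  have : PR (fun p : ℕ × ℕ × ℕ => MP_9f1eae_lc.W p.1 p.2.1 p.2.2) := by
    unfold MP_9f1eae_lc.W
    refine PR.all (by fun_prop) (PR.any (by fun_prop) (by fun_prop))
  exact PR.comp' (g := fun a => (f a, g a, h a)) this (by fun_prop)

def rel (n s b : ℕ) : Bool :=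
  !(W n s.unpair.1 s.unpair.2 && (List.range s.unpair.2).all fun t => !W n s.unpair.1 t) ||
    R0 n s.unpair.1 b

theorem pr_rel : PR (fun p : ℕ × ℕ × ℕ => rel p.1 p.2.1 p.2.2) := by
  unfold rel
  refine PR.or (PR.not (PR.and (by fun_prop) (PR.all (by fun_prop) (by fun_prop)))) (by fun_prop)

theorem W_iff (n a t : ℕ) : W n a t = true ↔ ∀ a' < a, ∃ b < t, R0 n a' b = true := by
  simp [W]

theorem rel_iff (n a t : ℕ) : (∀ b, rel n (Nat.pair a t) b = false) ↔
    W n a t = true ∧ (∀ t' < t, W n a t' = false) ∧ ∀ b, R0 n a b = false := by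
  simp only [rel, Nat.unpair_pair, Bool.or_eq_false_iff, Bool.not_eq_false', Bool.and_eq_true,
    List.all_eq_true, List.mem_range, Bool.not_eq_true']
  exact ⟨fun h => ⟨(h 0).1.1, (h 0).1.2, fun b => (h b).2⟩, fun h b => ⟨⟨h.1, h.2.1⟩, h.2.2 b⟩⟩

theorem rel_unique (n s s' : ℕ) (h : ∀ b, rel n s b = false) (h' : ∀ b, rel n s' b = false) :
    s = s' := by
  obtain ⟨a, t, rfl⟩ : ∃ n r, s = Nat.pair n r := ⟨_, _, (Nat.pair_unpair s).symm⟩
  obtain ⟨a', t', rfl⟩ : ∃ n r, s' = Nat.pair n r := ⟨_, _, (Nat.pair_unpair s').symm⟩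
  rw [rel_iff] at h h'
  obtain rfl : a = a' := by
    rcases lt_trichotomy a a' with h1 | h1 | h1
    · obtain ⟨b, -, hb⟩ := (W_iff _ _ _).1 h'.1 a h1
      simp [h.2.2 b] at hb
    · exact h1
    · obtain ⟨b, -, hb⟩ := (W_iff _ _ _).1 h.1 a' h1
      simp [h'.2.2 b] at hb
  obtain rfl : t = t' := by
    rcases lt_trichotomy t t' with h1 | h1 | h1
    · have := h'.2.1 t h1
      simp [h.1] at this
    · exact h1
    · have := h.2.1 t' h1
      simp [h'.1] at this
  rfl

theorem rel_exists (n : ℕ) : (∃ s, ∀ b, rel n s b = false) ↔ ¬ PP n := by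
  classical
  constructor
  · rintro ⟨s, h⟩ hP
    obtain ⟨a, t, rfl⟩ : ∃ n r, s = Nat.pair n r := ⟨_, _, (Nat.pair_unpair s).symm⟩
    rw [rel_iff] at h
    obtain ⟨b, hb⟩ := hP a
    simp [h.2.2 b] at hb
  · intro hP
    have hex : ∃ a, ∀ b, R0 n a b = false := by simpa [PP] using hP
    have h1 : ∀ a, (∀ a' < a, ∃ b, R0 n a' b = true) → ∃ t, W n a t = true := by
      intro a
      induction a with
      | zero => exact fun _ => ⟨0, by simp [W]⟩
      | succ a ih =>
        intro h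
        obtain ⟨t, ht⟩ := ih fun a' ha' => h a' (by omega)
        obtain ⟨b, hb⟩ := h a (by omega)
        refine ⟨t + b + 1, (W_iff _ _ _).2 fun a' ha' => ?_⟩
        rcases Nat.lt_succ_iff_lt_or_eq.1 ha' with h2 | rfl
        · obtain ⟨b', hb', h3⟩ := (W_iff _ _ _).1 ht a' h2
          exact ⟨b', by omega, h3⟩
        · exact ⟨b, by omega, hb⟩
    have h2 := h1 (Nat.find hex) fun a' ha' => by simpa using Nat.find_min hex ha'
    refine ⟨Nat.pair (Nat.find hex) (Nat.find h2), (rel_iff _ _ _).2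
      ⟨Nat.find_spec h2, fun t' ht' => by simpa using Nat.find_min h2 ht', Nat.find_spec hex⟩⟩

theorem pi2_complete {Y : Set ℕ} (hY : IsPi2 Y) : ∃ c, ∀ x, x ∈ Y ↔ PP (Nat.pair c x) := by
  obtain ⟨R, ⟨_, hR⟩, hY⟩ := hY
  have h1 : Partrec (fun m : ℕ => Nat.rfind fun b =>
      (Part.some (decide (R (m.unpair.1, m.unpair.2, b))) : Part Bool)) := by
    refine Partrec.rfind ?_
    have : PR (fun p : ℕ × ℕ => (p.1.unpair.1, p.1.unpair.2, p.2)) := by fun_prop
    exact (hR.comp this.primrec.to_comp).partrec.to₂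
  obtain ⟨c, hc⟩ := exists_code.1 (Partrec.nat_iff.1 h1)
  refine ⟨encode c, fun x => ?_⟩
  rw [hY]
  refine forall_congr' fun a => ?_
  simp only [R0, Nat.unpair_pair, ofNat_encode]
  constructor
  · rintro ⟨b, hb⟩
    obtain ⟨m, hm, -⟩ := Nat.rfind_min' (p := fun b => decide (R (x, a, b))) (m := b)
      (by simpa using hb)
    have : m ∈ eval c (Nat.pair x a) := by
      rw [hc]
      simpa using hm
    obtain ⟨k, hk⟩ := evaln_complete.1 this
    exact ⟨k, Option.isSome_iff_exists.2 ⟨m, hk⟩⟩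
  · rintro ⟨k, hk⟩
    obtain ⟨m, hm⟩ := Option.isSome_iff_exists.1 hk
    have := evaln_sound hm
    rw [hc] at this
    have := Nat.rfind_spec this
    exact ⟨m, by simpa using this⟩

theorem not_sigma2_PP : ¬ IsSigma2 {n | PP n} := by
  rintro ⟨R, hR, h⟩
  have hY : IsPi2 {x | ¬ PP (Nat.pair x x)} := by
    refine ⟨fun p => ¬ R (Nat.pair p.1 p.1, p.2.1, p.2.2), ?_, fun x => ?_⟩
    · obtain ⟨_, hR⟩ := hR
      have : PR (fun p : ℕ × ℕ × ℕ => (Nat.pair p.1 p.1, p.2.1, p.2.2)) := by fun_prop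
      refine ⟨inferInstance, ?_⟩
      exact (Primrec.not.to_comp.comp (hR.comp this.primrec.to_comp)).of_eq fun p => by simp
    · have := h (Nat.pair x x)
      simp only [Set.mem_ofPred_eq] at this ⊢
      rw [this]
      push Not
      rfl
  obtain ⟨c, hc⟩ := pi2_complete hY
  have := hc c
  simp only [Set.mem_ofPred_eq] at this
  tauto

theorem sigma2_of_cert {C : Type} [Primcodable C] [Inhabited C] {chk : ℕ → C → Bool}
    {sp : C → List ℕ} (pchk : PR (fun p : ℕ × C => chk p.1 p.2)) (psp : PR sp) {B Y : Set ℕ}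
    (h : ∀ n, n ∈ Y ↔ ∃ c, chk n c = true ∧ ∀ b ∈ sp c, b ∈ B) (hB : IsSigma2 B) :
    IsSigma2 Y := by
  obtain ⟨R, ⟨_, hR⟩, hB⟩ := hB
  let c : ℕ → C := fun a => dec C a.unpair.1
  let As : ℕ → List ℕ := fun a => dec (List ℕ) a.unpair.2
  refine ⟨fun p => chk p.1 (c p.2.1) = true ∧ (p.2.2.unpair.1 < (sp (c p.2.1)).length →
    R ((sp (c p.2.1)).getD p.2.2.unpair.1 0, (As p.2.1).getD p.2.2.unpair.1 0,
      p.2.2.unpair.2)), ?_, fun n => ?_⟩
  · have pc : PR (fun p : ℕ × ℕ × ℕ => c p.2.1) := by simp only [c]; fun_prop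
    have p1 : PR (fun p : ℕ × ℕ × ℕ => chk p.1 (c p.2.1)) :=
      PR.comp' (g := fun p : ℕ × ℕ × ℕ => (p.1, c p.2.1)) pchk (by fun_prop)
    have p2 : PR (fun p : ℕ × ℕ × ℕ => sp (c p.2.1)) := PR.comp' psp pc
    have p3 : PR (fun p : ℕ × ℕ × ℕ => As p.2.1) := by simp only [As]; fun_prop
    have p4 : PR (fun p : ℕ × ℕ × ℕ => (sp (c p.2.1)).getD p.2.2.unpair.1 0) :=
      (Primrec.list_getD 0).comp p2 (PR.primrec (by fun_prop))
    have p5 : PR (fun p : ℕ × ℕ × ℕ => (As p.2.1).getD p.2.2.unpair.1 0) :=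
      (Primrec.list_getD 0).comp p3 (PR.primrec (by fun_prop))
    have p6 : PR (fun p : ℕ × ℕ × ℕ => ((sp (c p.2.1)).getD p.2.2.unpair.1 0,
      (As p.2.1).getD p.2.2.unpair.1 0, p.2.2.unpair.2)) := by fun_prop
    have p7 : PR (fun p : ℕ × ℕ × ℕ => Nat.ble (sp (c p.2.1)).length p.2.2.unpair.1) := by
      fun_prop
    refine ⟨inferInstance, ?_⟩
    refine (Primrec.and.to_comp.comp p1.primrec.to_comp (Primrec.or.to_comp.comp
      p7.primrec.to_comp (hR.comp p6.primrec.to_comp))).of_eq fun p => ?_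
    rw [Bool.eq_iff_iff]
    simp only [Bool.and_eq_true, Bool.or_eq_true, Nat.ble_eq, decide_eq_true_eq]
    refine and_congr_right fun _ => ⟨fun h h' => h.resolve_left (by omega), fun h => ?_⟩
    by_cases h' : p.2.2.unpair.1 < (sp (c p.2.1)).length
    · exact Or.inr (h h')
    · exact Or.inl (by omega)
  · rw [h]
    constructor
    · rintro ⟨c0, h1, h2⟩
      have h3 : ∀ b, ∃ a, b ∈ B → ∀ t, R (b, a, t) := by
        intro b
        by_cases hb : b ∈ B
        · obtain ⟨a, ha⟩ := (hB b).1 hb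
          exact ⟨a, fun _ => ha⟩
        · exact ⟨0, fun h => absurd h hb⟩
      choose g hg using h3
      refine ⟨Nat.pair (encode c0) (encode ((sp c0).map g)), fun t => ?_⟩
      simp only [c, As, Nat.unpair_pair, dec_encode]
      refine ⟨h1, fun ht => ?_⟩
      rw [List.getD_eq_getElem _ _ ht, List.getD_eq_getElem _ _ (by simpa using ht),
        List.getElem_map]
      exact hg _ (h2 _ (List.getElem_mem _)) _
    · rintro ⟨a, ha⟩
      refine ⟨c a, (ha 0).1, fun b hb => ?_⟩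
      obtain ⟨i, hi, rfl⟩ := List.getElem_of_mem hb
      refine (hB _).2 ⟨(As a).getD i 0, fun t => ?_⟩
      have := (ha (Nat.pair i t)).2
      simp only [Nat.unpair_pair] at this
      rw [← List.getD_eq_getElem _ 0 hi]
      exact this hi

theorem turing_of_cert {C D : Type} [Primcodable C] [Inhabited C] [Primcodable D] [Inhabited D]
    {chk : ℕ → C → Bool} {sp : C → List ℕ} {chk' : ℕ → D → Bool} {sp' : D → List ℕ}
    (pchk : PR (fun p : ℕ × C => chk p.1 p.2)) (psp : PR sp)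
    (pchk' : PR (fun p : ℕ × D => chk' p.1 p.2)) (psp' : PR sp') {B Y : Set ℕ}
    (h : ∀ n, n ∈ Y ↔ ∃ c, chk n c = true ∧ ∀ b ∈ sp c, b ∈ B)
    (h' : ∀ n, n ∉ Y ↔ ∃ c, chk' n c = true ∧ ∀ b ∈ sp' c, b ∈ B) :
    TuringReducible (chi Y) (chi B) := by
  classical
  let A : ℕ → Bool := fun n => decide (n ∈ B)
  have hA : chi B = oracle A := by
    funext n
    simp [chi, oracle, A]
  let ok : ℕ → ℕ → List Bool → Bool := fun n k l =>
    bif k.unpair.2 == 0 then chk' n (dec D k.unpair.1) && (sp' (dec D k.unpair.1)).all (toC l)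
    else chk n (dec C k.unpair.1) && (sp (dec C k.unpair.1)).all (toC l)
  have pok : PR (fun p : ℕ × ℕ × List Bool => ok p.1 p.2.1 p.2.2) := by
    have p1 : PR (fun p : ℕ × ℕ × List Bool => chk p.1 (dec C p.2.1.unpair.1)) :=
      PR.comp' (g := fun p : ℕ × ℕ × List Bool => (p.1, dec C p.2.1.unpair.1)) pchk (by fun_prop)
    have p2 : PR (fun p : ℕ × ℕ × List Bool => chk' p.1 (dec D p.2.1.unpair.1)) :=
      PR.comp' (g := fun p : ℕ × ℕ × List Bool => (p.1, dec D p.2.1.unpair.1)) pchk'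
        (by fun_prop)
    have p3 : PR (fun p : ℕ × ℕ × List Bool => sp (dec C p.2.1.unpair.1)) :=
      PR.comp' psp (by fun_prop)
    have p4 : PR (fun p : ℕ × ℕ × List Bool => sp' (dec D p.2.1.unpair.1)) :=
      PR.comp' psp' (by fun_prop)
    exact PR.cond (by fun_prop) (PR.and p2 (PR.all p4 (by fun_prop)))
      (PR.and p1 (PR.all p3 (by fun_prop)))
  let ψ : ℕ → ℕ := fun p =>
    bif ok p.unpair.1.unpair.1 p.unpair.1.unpair.2.unpair.2 (dec (List Bool) p.unpair.2)
    then 0 else 1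
  have hψ : PR ψ :=
    PR.cond (PR.comp' (g := fun p : ℕ => (p.unpair.1.unpair.1, p.unpair.1.unpair.2.unpair.2,
      dec (List Bool) p.unpair.2)) pok (by fun_prop)) (by fun_prop) (by fun_prop)
  have hT := recIn_comp_tot (recIn_of_pr hψ) (recIn_pair_tot
    (recIn_of_pr (f := fun p : ℕ => p) (by fun_prop))
    (recIn_comp_tot (recIn_pre A)
      (recIn_of_pr (f := fun p : ℕ => p.unpair.2.unpair.1) (by fun_prop))))
  have hout := recIn_of_pr (A := A)
    (f := fun w : ℕ => bif w.unpair.2.unpair.2 == 0 then 0 else 1) (by fun_prop)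
  have htoC : ∀ j b, toC (pre j A) b = true → b ∈ B := by
    intro j b hb
    by_cases hj : b < j
    · simpa [toC, pre, List.getD_eq_getElem?_getD, List.getElem?_range hj, A] using hb
    · simp [toC, pre, List.getD_eq_getElem?_getD, hj] at hb
  have htoC' : ∀ S : List ℕ, (∀ b ∈ S, b ∈ B) → S.all (toC (pre (S.sum + 1) A)) = true := by
    intro S hS
    rw [List.all_eq_true]
    intro b hb
    have : b ≤ S.sum := List.single_le_sum (by simp) _ hb
    simpa [toC, pre, List.getD_eq_getElem?_getD, List.getElem?_range (Nat.lt_succ_of_le this),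
      A] using hS b hb
  rw [hA, TuringReducible, RecursiveIn.iff_nat]
  refine (Nat.RecursiveIn.comp hout (Nat.RecursiveIn.rfind hT)).of_eq fun n => ?_
  simp only [Nat.unpair_pair, ψ, dec_encode, Part.map_eq_map, Part.map_some]
  have hex : ∃ w : ℕ, ok n w.unpair.2 (pre w.unpair.1 A) = true := by
    by_cases hn : n ∈ Y
    · obtain ⟨c, h1, h2⟩ := (h n).1 hn
      refine ⟨Nat.pair ((sp c).sum + 1) (Nat.pair (encode c) 1), ?_⟩
      simp only [ok, Nat.unpair_pair, dec_encode, h1, htoC' _ h2]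
      rfl
    · obtain ⟨c, h1, h2⟩ := (h' n).1 hn
      refine ⟨Nat.pair ((sp' c).sum + 1) (Nat.pair (encode c) 0), ?_⟩
      simp only [ok, Nat.unpair_pair, dec_encode, h1, htoC' _ h2]
      rfl
  obtain ⟨w0, hw0⟩ := hex
  obtain ⟨w, hw, -⟩ := Nat.rfind_min' (p := fun w : ℕ => decide
    ((bif ok n w.unpair.2 (pre w.unpair.1 A) then 0 else 1 : ℕ) = 0)) (m := w0) (by simp [hw0])
  have hok : ok n w.unpair.2 (pre w.unpair.1 A) = true := by
    have := Nat.rfind_spec hw
    cases h1 : ok n w.unpair.2 (pre w.unpair.1 A)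
    · simp [h1] at this
    · rfl
  have hw' := Part.eq_some_iff.2 hw
  rw [show (Nat.rfind fun w : ℕ => Part.some (decide
    ((bif ok n w.unpair.2 (pre w.unpair.1 A) then 0 else 1 : ℕ) = 0))) = Part.some w from hw']
  simp only [Part.bind_eq_bind, Part.bind_some, chi]
  congr 1
  simp only [ok] at hok
  cases h0 : (w.unpair.2.unpair.2 == 0)
  · simp only [h0, cond_false, Bool.and_eq_true, List.all_eq_true] at hok ⊢
    rw [if_pos ((h n).2 ⟨_, hok.1, fun b hb => htoC _ _ (hok.2 b hb)⟩)]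
  · simp only [h0, cond_true, Bool.and_eq_true, List.all_eq_true] at hok ⊢
    rw [if_neg ((h' n).2 ⟨_, hok.1, fun b hb => htoC _ _ (hok.2 b hb)⟩)]

end Pool.Agent.Lib.MP_9f1eae_lc
end
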