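import Mathlib
import Pool.Agent.Lib.MP_9f1eae_lc.Comp

/-! Closure properties of computable functions and of `Pi^0_2` predicates; a `Pi^0_2` path through
a `Pi^0_2` system of extensions. -/

namespace Pool.Agent.Lib.MP_9f1eae_lc

open Pool.Agent.Lib.MP_3d42d9_lc Encodable

/-- A copy of `Computable` used as a function property. -/
@[fun_prop]
def CP {α β : Type} [Primcodable α] [Primcodable β] (f : α → β) : Prop := Computable f

section
variable {α β γ σ : Type} [Primcodable α] [Primcodable β] [Primcodable γ] [Primcodable σ]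

theorem CP.of_pr {f : α → β} (h : PR f) : CP f := h.primrec.to_comp
theorem CP.of_eq {f g : α → β} (h : CP f) (H : ∀ a, f a = g a) : CP g := Computable.of_eq h H

@[fun_prop] theorem CP.id' : CP (fun x : α => x) := Computable.id
@[fun_prop] theorem CP.const' (c : β) : CP (fun _ : α => c) := Computable.const c
@[fun_prop] theorem CP.comp' {f : β → γ} {g : α → β} (hf : CP f) (hg : CP g) :
    CP (fun x => f (g x)) := Computable.comp hf hg
@[fun_prop] theorem CP.fst {f : α → β × γ} (hf : CP f) : CP (fun x => (f x).1) :=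
  Computable.fst.comp hf
@[fun_prop] theorem CP.snd {f : α → β × γ} (hf : CP f) : CP (fun x => (f x).2) :=
  Computable.snd.comp hf
@[fun_prop] theorem CP.pair {f : α → β} {g : α → γ} (hf : CP f) (hg : CP g) :
    CP (fun x => (f x, g x)) := Computable.pair hf hg

theorem CP.bin {p : β → γ → σ} (hp : PR fun q : β × γ => p q.1 q.2) {f : α → β} {g : α → γ}
    (hf : CP f) (hg : CP g) : CP (fun x => p (f x) (g x)) :=
  CP.comp' (g := fun x => (f x, g x)) (CP.of_pr hp) (hf.pair hg)

@[fun_prop] theorem CP.and {f g : α → Bool} (hf : CP f) (hg : CP g) :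
    CP (fun x => (f x && g x)) := CP.bin (p := fun a b => a && b) (by fun_prop) hf hg
@[fun_prop] theorem CP.or {f g : α → Bool} (hf : CP f) (hg : CP g) :
    CP (fun x => (f x || g x)) := CP.bin (p := fun a b => a || b) (by fun_prop) hf hg
@[fun_prop] theorem CP.not {f : α → Bool} (hf : CP f) : CP (fun x => !f x) :=
  CP.comp' (CP.of_pr (f := fun b : Bool => !b) (by fun_prop)) hf
@[fun_prop] theorem CP.beq [BEq β] [LawfulBEq β] {f g : α → β} (hf : CP f) (hg : CP g) :
    CP (fun x => f x == g x) := CP.bin (p := fun a b => a == b) (by fun_prop) hf hg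
@[fun_prop] theorem CP.blt {f g : α → ℕ} (hf : CP f) (hg : CP g) :
    CP (fun x => Nat.blt (f x) (g x)) := CP.bin (p := fun a b => Nat.blt a b) (by fun_prop) hf hg
@[fun_prop] theorem CP.cons {f : α → β} {g : α → List β} (hf : CP f) (hg : CP g) :
    CP (fun x => f x :: g x) := CP.bin (p := fun a b => a :: b) (by fun_prop) hf hg
@[fun_prop] theorem CP.append {f g : α → List β} (hf : CP f) (hg : CP g) :
    CP (fun x => f x ++ g x) := CP.bin (p := fun a b => a ++ b) (by fun_prop) hf hg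
@[fun_prop] theorem CP.length {f : α → List β} (hf : CP f) : CP (fun x => (f x).length) :=
  Computable.list_length.comp hf
@[fun_prop] theorem CP.range {f : α → ℕ} (hf : CP f) : CP (fun x => List.range (f x)) :=
  CP.comp' (CP.of_pr (f := fun b : ℕ => List.range b) (by fun_prop)) hf
@[fun_prop] theorem CP.encode {f : α → β} (hf : CP f) : CP (fun x => encode (f x)) :=
  Computable.encode.comp hf
@[fun_prop] theorem CP.unpair {f : α → ℕ} (hf : CP f) : CP (fun x => Nat.unpair (f x)) :=
  Computable.unpair.comp hf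
@[fun_prop] theorem CP.dec {T : Type} [Primcodable T] [Inhabited T] {f : α → ℕ} (hf : CP f) :
    CP (fun a => dec T (f a)) :=
  CP.comp' (CP.of_pr (f := fun b : ℕ => MP_9f1eae_lc.dec T b) (by fun_prop)) hf
@[fun_prop] theorem CP.getD {f : α → List β} {g : α → ℕ} (d : β) (hf : CP f) (hg : CP g) :
    CP (fun a => (f a).getD (g a) d) :=
  CP.bin (p := fun (l : List β) (n : ℕ) => l.getD n d) (Primrec.list_getD d) hf hg

theorem CP.foldl {f : α → List β} {g : α → σ} {h : α → σ → β → σ} (hf : CP f) (hg : CP g)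
    (hh : CP (fun p : α × σ × β => h p.1 p.2.1 p.2.2)) :
    CP (fun a => (f a).foldl (h a) (g a)) := by
  have h1 : CP (fun p : α × ℕ × σ => ((f p.1)[p.2.1]?).casesOn (motive := fun _ => σ) p.2.2
      fun b => h p.1 p.2.2 b) := by
    refine Computable.option_casesOn (Computable.list_getElem?.comp (Computable.comp hf .fst)
      (Computable.fst.comp .snd)) (Computable.snd.comp .snd) ?_
    exact CP.comp' (g := fun q : (α × ℕ × σ) × β => (q.1.1, q.1.2.2, q.2)) hh (by fun_prop)
  have h2 := Computable.nat_rec (h := fun a (p : ℕ × σ) => ((f a)[p.1]?).casesOn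
    (motive := fun _ => σ) p.2 fun b => h a p.2 b) hf.length hg h1
  refine Computable.of_eq h2 fun a => ?_
  have key : ∀ n, (Nat.rec (g a) (fun y IH => ((f a)[y]?).casesOn (motive := fun _ => σ) IH
      fun b => h a IH b) n : σ) = ((f a).take n).foldl (h a) (g a) := by
    intro n
    induction n with
    | zero => simp
    | succ n ih =>
      rw [List.take_add_one, List.foldl_append, ← ih]
      simp only []
      cases (f a)[n]? <;> rfl
  simpa using key (f a).length

theorem CP.foldr {f : α → List β} {g : α → σ} {h : α → β → σ → σ} (hf : CP f) (hg : CP g)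
    (hh : CP (fun p : α × β × σ => h p.1 p.2.1 p.2.2)) :
    CP (fun a => (f a).foldr (h a) (g a)) :=
  (CP.foldl (h := fun a s b => h a b s) (Computable.list_reverse.comp hf) hg
    (CP.comp' (g := fun q : α × σ × β => (q.1, q.2.2, q.2.1)) hh (by fun_prop))).of_eq
    fun a => by simp [List.foldl_reverse]

theorem CP.all {f : α → List β} {g : α → β → Bool} (hf : CP f)
    (hg : CP (fun p : α × β => g p.1 p.2)) : CP (fun a => (f a).all (g a)) := by
  have h2 : CP (fun p : α × β × Bool => g p.1 p.2.1) :=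
    CP.comp' (g := fun p : α × β × Bool => (p.1, p.2.1)) hg (by fun_prop)
  have : CP (fun a => (f a).foldr (fun b s => g a b && s) true) :=
    CP.foldr hf (by fun_prop) (CP.and h2 (by fun_prop))
  exact this.of_eq fun a => by induction f a <;> simp [*]

theorem CP.map {f : α → List β} {g : α → β → σ} (hf : CP f)
    (hg : CP (fun p : α × β => g p.1 p.2)) : CP (fun a => (f a).map (g a)) := by
  have h2 : CP (fun p : α × β × List σ => g p.1 p.2.1) :=
    CP.comp' (g := fun p : α × β × List σ => (p.1, p.2.1)) hg (by fun_prop)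
  have : CP (fun a => (f a).foldr (fun b s => g a b :: s) []) :=
    CP.foldr hf (by fun_prop) (CP.cons h2 (by fun_prop))
  exact this.of_eq fun a => by induction f a <;> simp [*]

/-- Membership in a list of numbers. -/
def mb (n : ℕ) (l : List ℕ) : Bool := l.any fun x => x == n

theorem mb_iff {n : ℕ} {l : List ℕ} : mb n l = true ↔ n ∈ l := by simp [mb]

@[fun_prop] theorem CP.mb {f : α → ℕ} {g : α → List ℕ} (hf : CP f) (hg : CP g) :
    CP (fun x => mb (f x) (g x)) :=
  CP.bin (p := fun a b => MP_9f1eae_lc.mb a b) (by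
    unfold MP_9f1eae_lc.mb
    exact PR.any (by fun_prop) (by fun_prop)) hf hg

/-- `Pi^0_2` predicates. -/
def P2 (P : α → Prop) : Prop :=
  ∃ R : α × ℕ × ℕ → Bool, CP R ∧ ∀ x, P x ↔ ∀ a, ∃ b, R (x, a, b) = true

variable {P Q : α → Prop}

theorem P2.congr (h : P2 P) (e : ∀ x, Q x ↔ P x) : P2 Q := by
  obtain ⟨R, h1, h2⟩ := h
  exact ⟨R, h1, fun x => (e x).trans (h2 x)⟩

theorem P2.comp (h : P2 P) {g : β → α} (hg : CP g) : P2 fun x => P (g x) := by
  obtain ⟨R, h1, h2⟩ := h
  exact ⟨fun p => R (g p.1, p.2), h1.comp' (by fun_prop), fun x => h2 _⟩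

theorem P2.ex {T : Type} [Primcodable T] [Inhabited T] {f : α × T → Bool} (hf : CP f) :
    P2 fun x => ∃ t : T, f (x, t) = true :=
  ⟨fun p => f (p.1, dec T p.2.2), hf.comp' (by fun_prop), fun _ =>
    ⟨fun ⟨t, ht⟩ _ => ⟨encode t, by simpa only [dec_encode] using ht⟩,
      fun h => (h 0).elim fun _ hb => ⟨_, hb⟩⟩⟩

theorem P2.bool {f : α → Bool} (hf : CP f) : P2 fun x => f x = true :=
  (P2.ex (T := ℕ) (f := fun p => f p.1) (by fun_prop)).congr fun _ => by simp

theorem P2.all {T : Type} [Primcodable T] [Inhabited T] {P : α × T → Prop} (h : P2 P) :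
    P2 fun x => ∀ t : T, P (x, t) := by
  obtain ⟨R, h1, h2⟩ := h
  refine ⟨fun p => R ((p.1, dec T p.2.1.unpair.1), p.2.1.unpair.2, p.2.2),
    h1.comp' (by fun_prop), fun x => ⟨fun h a => (h2 _).1 (h (dec T a.unpair.1)) a.unpair.2,
      fun h t => (h2 _).2 fun a => ?_⟩⟩
  simpa only [Nat.unpair_pair, dec_encode] using h (Nat.pair (encode t) a)

theorem P2.and (h : P2 P) (h' : P2 Q) : P2 fun x => P x ∧ Q x := by
  obtain ⟨R, h1, h2⟩ := h
  obtain ⟨R', h3, h4⟩ := h'
  refine ⟨fun p => R (p.1, p.2.1, p.2.2.unpair.1) && R' (p.1, p.2.1, p.2.2.unpair.2),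
    (h1.comp' (by fun_prop)).and (h3.comp' (by fun_prop)), fun x => ?_⟩
  simp only [h2, h4, Bool.and_eq_true]
  refine ⟨fun h a => ?_, fun h => ⟨fun a => (h a).elim fun _ hb => ⟨_, hb.1⟩,
    fun a => (h a).elim fun _ hb => ⟨_, hb.2⟩⟩⟩
  obtain ⟨b, hb⟩ := h.1 a
  obtain ⟨b', hb'⟩ := h.2 a
  exact ⟨Nat.pair b b', by simpa only [Nat.unpair_pair] using ⟨hb, hb'⟩⟩

theorem P2.or (h : P2 P) (h' : P2 Q) : P2 fun x => P x ∨ Q x := by
  obtain ⟨R, h1, h2⟩ := h
  obtain ⟨R', h3, h4⟩ := h'
  refine ⟨fun p => R (p.1, p.2.1.unpair.1, p.2.2) || R' (p.1, p.2.1.unpair.2, p.2.2),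
    (h1.comp' (by fun_prop)).or (h3.comp' (by fun_prop)), fun x => ?_⟩
  simp only [h2, h4, Bool.or_eq_true]
  refine ⟨fun h a => h.elim (fun h => (h _).imp fun _ => .inl) fun h => (h _).imp fun _ => .inr,
    fun h => ?_⟩
  by_contra k
  push Not at k
  obtain ⟨⟨a, ha⟩, a', ha'⟩ := k
  obtain ⟨b, hb⟩ := h (Nat.pair a a')
  simp only [Nat.unpair_pair] at hb
  exact hb.elim (ha b) (ha' b)

theorem P2.imp {f : α → Bool} (hf : CP f) (h : P2 Q) : P2 fun x => f x = true → Q x :=
  ((P2.bool hf.not).or h).congr fun x => by cases f x <;> simp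

theorem P2.bex {P : α × ℕ → Prop} (h : P2 P) {m : α → ℕ} (hm : CP m) :
    P2 fun x => ∃ i < m x, P (x, i) := by
  obtain ⟨R, h1, h2⟩ := h
  refine ⟨fun p => Nat.blt p.2.2.unpair.1 (m p.1) && R ((p.1, p.2.2.unpair.1),
      (dec (List ℕ) p.2.1).getD p.2.2.unpair.1 0, p.2.2.unpair.2),
    CP.and (by fun_prop) (h1.comp' (by fun_prop)), fun x => ?_⟩
  simp only [h2, Bool.and_eq_true, Nat.blt_eq]
  refine ⟨fun ⟨i, hi, h⟩ a => ?_, fun h => ?_⟩
  · obtain ⟨b, hb⟩ := h ((dec (List ℕ) a).getD i 0)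
    exact ⟨Nat.pair i b, by simpa only [Nat.unpair_pair] using ⟨hi, hb⟩⟩
  · by_contra k
    push Not at k
    choose! A hA using k
    obtain ⟨b, hb, hb'⟩ := h (encode ((List.range (m x)).map A))
    rw [dec_encode] at hb'
    refine hA _ hb b.unpair.2 ?_
    simpa [List.getD_eq_getElem?_getD, List.getElem?_range hb] using hb'

theorem P2.ball {P : α × ℕ → Prop} (h : P2 P) {m : α → ℕ} (hm : CP m) :
    P2 fun x => ∀ i < m x, P (x, i) :=
  (P2.all (P2.imp (f := fun p : α × ℕ => Nat.blt p.2 (m p.1)) (by fun_prop) h)).congr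
    fun x => by simp [Nat.blt_eq]

theorem P2.isPi2 {B : Set ℕ} (h : P2 fun n => n ∈ B) : IsPi2 B := by
  obtain ⟨R, h1, h2⟩ := h
  exact ⟨fun p => R p = true, ⟨inferInstance, Computable.of_eq h1 fun p => by simp⟩, h2⟩

end

end Pool.Agent.Lib.MP_9f1eae_lc
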