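import Mathlib
import Pool.Agent.Lib.MP_9f1eae_lc.SoftP2

/-! A `Pi^0_2` path through a `Pi^0_2` system of extensions. -/

namespace Pool.Agent.Lib.MP_9f1eae_lc

open Pool.Agent.Lib.MP_3d42d9_lc Encodable

theorem CP.bin' {α β γ σ : Type} [Primcodable α] [Primcodable β] [Primcodable γ] [Primcodable σ]
    {p : β → γ → σ} (hp : CP fun q : β × γ => p q.1 q.2) {f : α → β} {g : α → γ}
    (hf : CP f) (hg : CP g) : CP (fun x => p (f x) (g x)) :=
  CP.comp' (g := fun x => (f x, g x)) hp (hf.pair hg)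

/-- Histories: candidate, bound for the witnesses, translation. -/
abbrev Hs := List (ℕ × ℕ × ℕ)

section
variable (tr : List ℕ → ℕ → List ℕ) (R : (List ℕ × ℕ × List ℕ) × ℕ × ℕ → Bool)

/-- The tuple built along a history. -/
def bt (h : Hs) : List ℕ := h.foldr (fun r acc => acc ++ tr (dec (List ℕ) r.1) r.2.2) []

/-- The matrix for the candidate `j`. -/
def RR (h : Hs) (j a b : ℕ) : Bool := R ((bt tr h, h.length, dec (List ℕ) j), a, b)

/-- All smaller candidates are refuted below `w`. -/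
def Wit (h : Hs) (j w : ℕ) : Prop := ∀ j' < j, ∃ a < w, ∀ b : ℕ, (!RR tr R h j' a b) = true

/-- The least good candidate with the least bound for the witnesses. -/
def St0 (h : Hs) (j w : ℕ) : Prop :=
  (∀ a : ℕ, ∃ b : ℕ, RR tr R h j a b = true) ∧ Wit tr R h j w ∧
    ∀ w' < w, ∃ j' < j, ∀ a < w', ∃ b : ℕ, RR tr R h j' a b = true

/-- The translated candidate lies above the code of the data. -/
def big (c : Hs × ℕ × ℕ) (k : ℕ) : Bool :=
  (tr (dec (List ℕ) c.2.1) k).all fun x => Nat.blt (encode c) x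

/-- The least such translation. -/
def lst (c : Hs × ℕ × ℕ) (k : ℕ) : Bool :=
  big tr c k && (List.range k).all fun k' => !big tr c k'

/-- A correct step. -/
def Step (h : Hs) (r : ℕ × ℕ × ℕ) : Prop :=
  St0 tr R h r.1 r.2.1 ∧ lst tr (h, r.1, r.2.1) r.2.2 = true

/-- A correct history. -/
def Tru (h : Hs) : Prop :=
  ∀ q : Hs × (ℕ × ℕ × ℕ) × Hs, (h == q.1 ++ q.2.1 :: q.2.2) = true → Step tr R q.2.2 q.2.1

variable {tr R}

theorem step_unique {h : Hs} {r r' : ℕ × ℕ × ℕ} (s : Step tr R h r) (s' : Step tr R h r') :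
    r = r' := by
  obtain ⟨j, w, k⟩ := r
  obtain ⟨j', w', k'⟩ := r'
  have k1 : ∀ {j w j' w'}, St0 tr R h j w → St0 tr R h j' w' → ¬ j < j' := fun s s' l => by
    obtain ⟨a, -, ha⟩ := s'.2.1 _ l
    obtain ⟨b, hb⟩ := s.1 a
    simpa [hb] using ha b
  obtain rfl : j = j' := le_antisymm (not_lt.1 (k1 s'.1 s.1)) (not_lt.1 (k1 s.1 s'.1))
  have k2 : ∀ {w w'}, St0 tr R h j w → St0 tr R h j w' → ¬ w < w' := fun s s' l => by
    obtain ⟨i, hi, h1⟩ := s'.2.2 _ l
    obtain ⟨a, h2, ha⟩ := s.2.1 i hi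
    obtain ⟨b, hb⟩ := h1 a h2
    simpa [hb] using ha b
  obtain rfl : w = w' := le_antisymm (not_lt.1 (k2 s'.1 s.1)) (not_lt.1 (k2 s.1 s'.1))
  have k3 : ∀ {k k'}, lst tr (h, j, w) k = true → lst tr (h, j, w) k' = true → ¬ k < k' :=
    fun s s' l => by
      simp only [lst, Bool.and_eq_true, List.all_eq_true, List.mem_range] at s s'
      simpa [s.1] using s'.2 _ l
  obtain rfl : k = k' := le_antisymm (not_lt.1 (k3 s'.2 s.2)) (not_lt.1 (k3 s.2 s'.2))
  rfl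

theorem step_exists (hb : ∀ δ N, ∃ k, ∀ x ∈ tr δ k, N < x) {h : Hs}
    (g : ∃ δ, ∀ a, ∃ b, R ((bt tr h, h.length, δ), a, b) = true) : ∃ r, Step tr R h r := by
  classical
  have g1 : ∃ j, ∀ a, ∃ b, RR tr R h j a b = true :=
    g.elim fun δ hδ => ⟨encode δ, by simpa only [RR, dec_encode] using hδ⟩
  have g2 : ∃ w, Wit tr R h (Nat.find g1) w := by
    have : ∀ j' < Nat.find g1, ∃ a, ∀ b : ℕ, (!RR tr R h j' a b) = true := fun j' l => by
      simpa using Nat.find_min g1 l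
    choose! A hA using this
    exact ⟨(Finset.range (Nat.find g1)).sup A + 1, fun j' l =>
      ⟨A j', Nat.lt_succ_of_le (Finset.le_sup (f := A) (Finset.mem_range.2 l)), hA j' l⟩⟩
  have g3 : ∃ k, big tr (h, Nat.find g1, Nat.find g2) k = true := by
    simpa only [big, List.all_eq_true, Nat.blt_eq] using hb _ _
  refine ⟨(Nat.find g1, Nat.find g2, Nat.find g3), ⟨Nat.find_spec g1, Nat.find_spec g2,
    fun w' l => ?_⟩, ?_⟩
  · simpa [Wit] using Nat.find_min g2 l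
  · simp only [lst, Bool.and_eq_true, List.all_eq_true, List.mem_range]
    exact ⟨Nat.find_spec g3, fun k' l => by simpa using Nat.find_min g3 l⟩

theorem tru_cons {h : Hs} {r : ℕ × ℕ × ℕ} : Tru tr R (r :: h) ↔ Step tr R h r ∧ Tru tr R h := by
  refine ⟨fun t => ⟨t ([], r, h) (by simp), fun q e => t (r :: q.1, q.2) (by simpa using e)⟩,
    fun t ⟨h1, r', h'⟩ e => ?_⟩
  cases h1 with
  | nil =>
    obtain ⟨rfl, rfl⟩ : r = r' ∧ h = h' := by simpa using e
    exact t.1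
  | cons r'' h1 =>
    refine t.2 (h1, r', h') ?_
    simp only [List.cons_append, beq_iff_eq, List.cons.injEq] at e ⊢
    exact e.2

section Eff
variable (ctr : CP fun p : List ℕ × ℕ => tr p.1 p.2) (cR : CP R)
include ctr

theorem cp_bt : CP (bt tr) := by
  unfold bt
  refine CP.foldr (f := fun h : Hs => h) (by fun_prop) (by fun_prop) (CP.append (by fun_prop) ?_)
  exact CP.comp' (g := fun p : Hs × (ℕ × ℕ × ℕ) × List ℕ => (dec (List ℕ) p.2.1.1, p.2.1.2.2)) ctr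
    (by fun_prop)

theorem cp_big : CP fun p : (Hs × ℕ × ℕ) × ℕ => big tr p.1 p.2 := by
  unfold big
  refine CP.all ?_ (by fun_prop)
  exact CP.comp' (g := fun p : (Hs × ℕ × ℕ) × ℕ => (dec (List ℕ) p.1.2.1, p.2)) ctr (by fun_prop)

theorem cp_lst : CP fun p : (Hs × ℕ × ℕ) × ℕ => lst tr p.1 p.2 := by
  unfold lst
  refine (cp_big ctr).and (CP.all (by fun_prop) (CP.not ?_))
  exact CP.bin' (cp_big ctr) (by fun_prop) (by fun_prop)

include cR

theorem cp_RR {α : Type} [Primcodable α] {h : α → Hs} {j a b : α → ℕ} (h1 : CP h) (h2 : CP j)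
    (h3 : CP a) (h4 : CP b) : CP fun x => RR tr R (h x) (j x) (a x) (b x) := by
  have := cp_bt ctr
  unfold RR
  fun_prop

theorem p2_st0 : P2 fun c : Hs × ℕ × ℕ => St0 tr R c.1 c.2.1 c.2.2 := by
  unfold St0 Wit
  refine P2.and (P2.all (P := fun p : (Hs × ℕ × ℕ) × ℕ => ∃ b : ℕ,
      RR tr R p.1.1 p.1.2.1 p.2 b = true) ?_) (P2.and ?_ ?_)
  · exact P2.ex (f := fun q : ((Hs × ℕ × ℕ) × ℕ) × ℕ => RR tr R q.1.1.1 q.1.1.2.1 q.1.2 q.2)
      (cp_RR ctr cR (by fun_prop) (by fun_prop) (by fun_prop) (by fun_prop))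
  · refine P2.ball (P := fun p : (Hs × ℕ × ℕ) × ℕ => ∃ a < p.1.2.2, ∀ b : ℕ,
      (!RR tr R p.1.1 p.2 a b) = true) ?_ (by fun_prop)
    refine P2.bex (P := fun p : ((Hs × ℕ × ℕ) × ℕ) × ℕ => ∀ b : ℕ,
      (!RR tr R p.1.1.1 p.1.2 p.2 b) = true) ?_ (by fun_prop)
    refine P2.all (P := fun p : (((Hs × ℕ × ℕ) × ℕ) × ℕ) × ℕ =>
      (!RR tr R p.1.1.1.1 p.1.1.2 p.1.2 p.2) = true) (P2.bool (CP.not ?_))
    exact cp_RR ctr cR (by fun_prop) (by fun_prop) (by fun_prop) (by fun_prop)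
  · refine P2.ball (P := fun p : (Hs × ℕ × ℕ) × ℕ => ∃ j' < p.1.2.1, ∀ a < p.2, ∃ b : ℕ,
      RR tr R p.1.1 j' a b = true) ?_ (by fun_prop)
    refine P2.bex (P := fun p : ((Hs × ℕ × ℕ) × ℕ) × ℕ => ∀ a < p.1.2, ∃ b : ℕ,
      RR tr R p.1.1.1 p.2 a b = true) ?_ (by fun_prop)
    refine P2.ball (P := fun p : (((Hs × ℕ × ℕ) × ℕ) × ℕ) × ℕ => ∃ b : ℕ,
      RR tr R p.1.1.1.1 p.1.2 p.2 b = true) ?_ (by fun_prop)
    exact P2.ex (f := fun q : ((((Hs × ℕ × ℕ) × ℕ) × ℕ) × ℕ) × ℕ =>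
      RR tr R q.1.1.1.1.1 q.1.1.2 q.1.2 q.2)
      (cp_RR ctr cR (by fun_prop) (by fun_prop) (by fun_prop) (by fun_prop))

theorem p2_tru : P2 (Tru tr R) := by
  unfold Tru Step
  refine P2.all (P := fun p : Hs × Hs × (ℕ × ℕ × ℕ) × Hs =>
    (p.1 == p.2.1 ++ p.2.2.1 :: p.2.2.2) = true → St0 tr R p.2.2.2 p.2.2.1.1 p.2.2.1.2.1 ∧
      lst tr (p.2.2.2, p.2.2.1.1, p.2.2.1.2.1) p.2.2.1.2.2 = true) (P2.imp (by fun_prop) ?_)
  exact ((p2_st0 ctr cR).comp (g := fun p : Hs × Hs × (ℕ × ℕ × ℕ) × Hs =>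
    (p.2.2.2, p.2.2.1.1, p.2.2.1.2.1)) (by fun_prop)).and
      (P2.bool (CP.bin' (cp_lst ctr) (by fun_prop) (by fun_prop)))

end Eff

end

theorem exists_path {tr : List ℕ → ℕ → List ℕ} (ctr : CP fun p : List ℕ × ℕ => tr p.1 p.2)
    (hb : ∀ δ N, ∃ k, ∀ x ∈ tr δ k, N < x) {Good : List ℕ × ℕ × List ℕ → Prop} (hG : P2 Good)
    {Inv : List ℕ → Prop} (h0 : Inv []) (ext : ∀ β l, Inv β → ∃ δ, Good (β, l, δ))
    (keep : ∀ β l δ k, Good (β, l, δ) → Inv (β ++ tr δ k)) :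
    ∃ β : ℕ → List ℕ, (∀ l, Inv (β l)) ∧
      (∀ l, ∃ δ k, Good (β l, l, δ) ∧ β (l + 1) = β l ++ tr δ k) ∧
      P2 fun n => ∃ l, n ∈ β l := by
  obtain ⟨R, cR, hR⟩ := hG
  let H : ℕ → Hs := fun l => Nat.rec [] (fun _ h => Classical.epsilon (Step tr R h) :: h) l
  have len : ∀ l, (H l).length = l := fun l => by
    induction l with
    | zero => rfl
    | succ l ih => exact congrArg (· + 1) ih
  have st : ∀ h, Inv (bt tr h) → Step tr R h (Classical.epsilon (Step tr R h)) := fun h i =>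
    Classical.epsilon_spec (step_exists hb ((ext _ _ i).imp fun δ g => (hR _).1 g))
  have inv : ∀ l, Inv (bt tr (H l)) := fun l => by
    induction l with
    | zero => exact h0
    | succ l ih => exact keep _ _ _ _ ((hR _).2 (st _ ih).1.1)
  have tru : ∀ l, Tru tr R (H l) := fun l => by
    induction l with
    | zero => exact fun q e => by simp [H] at e
    | succ l ih => exact tru_cons.2 ⟨st _ (inv l), ih⟩
  have uniq : ∀ h, Tru tr R h → h = H h.length := fun h t => by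
    induction h with
    | nil => rfl
    | cons r h ih =>
      obtain ⟨s, t⟩ := tru_cons.1 t
      have e := ih t
      have : r = Classical.epsilon (Step tr R h) := step_unique s (st _ (e ▸ inv _))
      change r :: h = Classical.epsilon (Step tr R (H h.length)) :: H h.length
      rw [← e, ← this]
  refine ⟨fun l => bt tr (H l), inv, fun l => ⟨_, _, ?_, rfl⟩, ?_⟩
  · have := (hR _).2 (st _ (inv l)).1.1
    rwa [len] at this
  have p : P2 fun q : ℕ × Hs × ℕ × ℕ => Tru tr R q.2.1 ∧ St0 tr R q.2.1 q.2.2.1 q.2.2.2 ∧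
      ∃ k : ℕ, (lst tr q.2 k && mb q.1 (tr (dec (List ℕ) q.2.2.1) k)) = true := by
    refine ((p2_tru ctr cR).comp (by fun_prop)).and (((p2_st0 ctr cR).comp CP.id'.snd).and ?_)
    refine P2.ex (f := fun p : (ℕ × Hs × ℕ × ℕ) × ℕ =>
      lst tr p.1.2 p.2 && mb p.1.1 (tr (dec (List ℕ) p.1.2.2.1) p.2)) (CP.and ?_ (CP.mb ?_ ?_))
    · exact CP.bin' (cp_lst ctr) (by fun_prop) (by fun_prop)
    · fun_prop
    · exact CP.comp' (g := fun p : (ℕ × Hs × ℕ × ℕ) × ℕ => (dec (List ℕ) p.1.2.2.1, p.2)) ctr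
        (by fun_prop)
  refine (P2.bex (p.comp (g := fun q : ℕ × ℕ => (q.1, dec (Hs × ℕ × ℕ) q.2)) (by fun_prop))
    CP.id').congr fun n => ⟨fun ⟨l, hl⟩ => ?_, fun ⟨c, _, t, s, k, hk⟩ => ?_⟩
  · induction l with
    | zero => simp [H, bt] at hl
    | succ l ih =>
      rcases List.mem_append.1 hl with hl | hl
      · exact ih hl
      · have s := st _ (inv l)
        generalize Classical.epsilon (Step tr R (H l)) = r at s hl
        refine ⟨encode (H l, r.1, r.2.1), ?_, ?_⟩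
        · have := s.2
          simp only [lst, big, Bool.and_eq_true, List.all_eq_true, Nat.blt_eq] at this
          exact this.1 n hl
        · simp only [dec_encode]
          exact ⟨tru l, s.1, r.2.2, by rw [Bool.and_eq_true, mb_iff]; exact ⟨s.2, hl⟩⟩
  · generalize dec (Hs × ℕ × ℕ) c = q at t s hk
    obtain ⟨h, j, w⟩ := q
    rw [Bool.and_eq_true, mb_iff] at hk
    have t' : Tru tr R ((j, w, k) :: h) := tru_cons.2 ⟨⟨s, hk.1⟩, t⟩
    refine ⟨((j, w, k) :: h).length, ?_⟩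
    change n ∈ bt tr (H ((j, w, k) :: h).length)
    rw [← uniq _ t']
    exact List.mem_append_right _ hk.2

end Pool.Agent.Lib.MP_9f1eae_lc
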