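import Mathlib

namespace Pool.Agent.Lib.MP_9f1eae_lc

open MvPolynomial

/-- The tuple `b` of `R = Q[x_i]` is soft: there is a homomorphism `R -> R[t_1, ..., t_n]` that
sends `b_j` to `t_j` and is the identity after the substitution `t_j = b_j`. -/
def Soft {n : ℕ} (b : Fin n → MvPolynomial ℕ ℚ) : Prop :=
  ∃ φ : MvPolynomial ℕ ℚ →ₐ[ℚ] MvPolynomial (Fin n) (MvPolynomial ℕ ℚ),
    (∀ j, φ (b j) = X j) ∧ ∀ r, eval b (φ r) = r

end Pool.Agent.Lib.MP_9f1eae_lc
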