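import Mathlib
import Pool.Agent.Lib.MP_9f1eae_lc.SoftPath
import Pool.Agent.Lib.MP_9f1eae_lc.SoftDefs

/-! If soft tuples extend to bases, every computable copy has a `Pi^0_2` basis. -/

namespace Pool.Agent.Lib.MP_9f1eae_lc

open Pool.Agent.Lib.MP_3d42d9_lc MvPolynomial

theorem map_val' {A A' : Type} [CommRing A] [Algebra ℚ A] [CommRing A'] [Algebra ℚ A']
    (φ : A →ₐ[ℚ] A') (f : ℕ → A) (g : ℕ → A') (t : Tm) (h : ∀ j ∈ supp t, φ (f j) = g j) :
    φ (val f t) = val g t := by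
  unfold val
  rw [map_smul, map_sub, map_ev, map_ev]
  congr 2
  · exact ev_congr fun μ hμ j hj => h j (mem_supp.2 (Or.inl ⟨μ, hμ, hj⟩))
  · exact ev_congr fun μ hμ j hj => h j (mem_supp.2 (Or.inr ⟨μ, hμ, hj⟩))

theorem val_mem {A : Type} [CommRing A] [Algebra ℚ A] (S : Subalgebra ℚ A) (f : ℕ → A) (t : Tm)
    (h : ∀ j ∈ supp t, f j ∈ S) : val f t ∈ S := by
  classical
  rw [← map_val' S.val (fun j => if k : f j ∈ S then ⟨f j, k⟩ else 0) f t
    fun j hj => by simp [h j hj]]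
  exact Subtype.prop _

/-- Substitution of terms into a list polynomial. -/
def cmpL (F : List Tm) (L : LP) : Tm :=
  L.foldr (fun μ acc => addT (μ.foldr (fun j a => mulT (F.getD j default) a) (0, [[]], [])) acc)
    (0, [], [])

theorem val_cmpL (F : List Tm) (L : LP) :
    val (X : ℕ → Pq) (cmpL F L) = ev (fun j => val X (F.getD j default)) L := by
  unfold cmpL
  induction L with
  | nil => simp [val]
  | cons μ L ih =>
    rw [List.foldr_cons, val_addT, ih, ev_cons]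
    congr 1
    induction μ with
    | nil => simp [val]
    | cons j μ ih => rw [List.foldr_cons, val_mulT, ih, List.map_cons, List.prod_cons]

theorem pr_cmpL : PR fun p : List Tm × LP => cmpL p.1 p.2 := by
  unfold cmpL
  refine PR.foldr (by fun_prop) (by fun_prop) (PR.addT ?_ (by fun_prop))
  refine PR.foldr (by fun_prop) (by fun_prop) (PR.mulT ?_ (by fun_prop))
  exact (Primrec.list_getD default).comp (PR.primrec (by fun_prop)) (PR.primrec (by fun_prop))

/-- Equality of terms. -/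
def eqV (s t : Tm) : Bool :=
  eqP (scal (t.1 + 1) s.2.1 ++ scal (s.1 + 1) t.2.2) (scal (s.1 + 1) t.2.1 ++ scal (t.1 + 1) s.2.2)

/-- The formal identity `G(F) = X_y`. -/
def ident (F : List Tm) (G : Tm) (y : ℕ) : Bool :=
  eqV (cmpL F G.2.1) (addT (0, scal (G.1 + 1) [[y]], []) (cmpL F G.2.2))

theorem ident_iff (F : List Tm) (G : Tm) (y : ℕ) : ident F G y = true ↔
    val (fun j => val (X : ℕ → Pq) (F.getD j default)) G = X y := by
  rw [ident, eqV, eqP_iff, ← val_eq_iff, val_addT, val_cmpL, val_cmpL]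
  have h := mul_val (fun j => val (X : ℕ → Pq) (F.getD j default)) G
  have h' : val (X : ℕ → Pq) (0, scal (G.1 + 1) [[y]], []) = ((G.1 : Pq) + 1) * X y := by
    simp [val]
  rw [h']
  refine ⟨fun k => cancel_succ G.1 ?_, fun k => ?_⟩
  · linear_combination h + k
  · rw [k] at h
    linear_combination -h

theorem pr_ident : PR fun p : List Tm × Tm × ℕ => ident p.1 p.2.1 p.2.2 := by
  have h1 : PR fun p : List Tm × Tm × ℕ => cmpL p.1 p.2.1.2.1 :=
    PR.comp' (g := fun p : List Tm × Tm × ℕ => (p.1, p.2.1.2.1)) pr_cmpL (by fun_prop)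
  have h2 : PR fun p : List Tm × Tm × ℕ => cmpL p.1 p.2.1.2.2 :=
    PR.comp' (g := fun p : List Tm × Tm × ℕ => (p.1, p.2.1.2.2)) pr_cmpL (by fun_prop)
  have h3 : PR fun p : Tm × Tm => eqV p.1 p.2 := by unfold eqV; fun_prop
  exact PR.comp' (g := fun p : List Tm × Tm × ℕ => (cmpL p.1 p.2.1.2.1,
    addT (0, scal (p.2.1.1 + 1) [[p.2.2]], []) (cmpL p.1 p.2.1.2.2))) h3
      (h1.pair (PR.addT (by fun_prop) h2))

attribute [irreducible] ident

section
variable (e : ℕ ≃ Pq)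

/-- The entries are members of one basis. -/
def Part (β : List ℕ) : Prop := ∃ ψ : Pq ≃ₐ[ℚ] Pq, ∀ y ∈ β, ∃ k, ψ (X k) = e y

/-- The `Pi^0_2` form of softness. -/
def Cf (β : List ℕ) : Prop :=
  ∀ G : List Tm, (∀ y ∈ β, val e (G.getD y default) = e y) → ∃ F : List Tm, ∀ y ∈ β,
    (∀ i ∈ supp (G.getD y default), val e (F.getD i default) = e i) ∧
      ident F (G.getD y default) y = true

variable {e}

theorem exists_terms (g : ℕ → Pq) (hg : Algebra.adjoin ℚ (Set.range g) = ⊤) (N : ℕ) :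
    ∃ F : List Tm, ∀ i < N, val e (F.getD i default) = e i ∧
      ∀ j ∈ supp (F.getD i default), ∃ k, g k = e j := by
  have : ∀ i, ∃ t : Tm, val e t = e i ∧ ∀ j ∈ supp t, j ∈ {j | ∃ k, g k = e j} := fun i =>
    exists_term e _ (by
      have : e '' {j | ∃ k, g k = e j} = Set.range g := by
        ext x
        exact ⟨fun ⟨j, ⟨k, h⟩, h'⟩ => ⟨k, h.trans h'⟩,
          fun ⟨k, h⟩ => ⟨e.symm x, ⟨k, by simpa using h⟩, by simp⟩⟩
      rw [this, hg]
      trivial)
  choose t h1 h2 using this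
  refine ⟨(List.range N).map t, fun i hi => ?_⟩
  have : ((List.range N).map t).getD i default = t i := by
    simp [List.getD_eq_getElem?_getD, List.getElem?_range hi]
  rw [this]
  exact ⟨h1 i, h2 i⟩

theorem adjoin_basis (ψ : Pq ≃ₐ[ℚ] Pq) : Algebra.adjoin ℚ (Set.range fun k => ψ (X k)) = ⊤ := by
  have : (Set.range fun k => ψ (X k)) = ψ.toAlgHom '' Set.range X := by
    rw [← Set.range_comp]; rfl
  rw [this, ← AlgHom.map_adjoin, adjoin_range_X, Algebra.map_top, AlgHom.range_eq_top]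
  exact ψ.surjective

theorem le_sum_flat {β : List ℕ} {s : ℕ → List ℕ} {y i : ℕ} (hy : y ∈ β) (hi : i ∈ s y) :
    i < (β.flatMap s).sum + 1 :=
  Nat.lt_succ_of_le (List.single_le_sum (by simp) _ (List.mem_flatMap.2 ⟨y, hy, hi⟩))

theorem Part.cf {β : List ℕ} (h : Part e β) : Cf e β := by
  obtain ⟨ψ, hψ⟩ := h
  intro G hG
  obtain ⟨F, hF⟩ := exists_terms (e := e) _ (adjoin_basis ψ)
    ((β.flatMap fun y => supp (G.getD y default)).sum + 1)
  refine ⟨F, fun y hy => ⟨fun i hi => (hF i (le_sum_flat hy hi)).1, (ident_iff _ _ _).2 ?_⟩⟩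
  let ρ : Pq →ₐ[ℚ] Pq := (rename fun k => e.symm (ψ (X k))).comp ψ.symm.toAlgHom
  have hρ : ∀ j, (∃ k, ψ (X k) = e j) → ρ (e j) = X j := fun j ⟨k, hk⟩ => by
    have : e.symm (ψ (X k)) = j := by rw [hk, e.symm_apply_apply]
    simp [ρ, ← hk, this]
  rw [← hρ y (hψ y hy), ← hG y hy]
  refine (map_val' ρ _ _ _ fun i hi => ?_).symm
  have k := hF i (le_sum_flat hy hi)
  rw [← k.1]
  exact map_val' ρ _ _ _ fun j hj => hρ j (k.2 j hj)

theorem Cf.soft {β : List ℕ} (h : Cf e β) {n : ℕ} (c : Fin n → ℕ) (hc : Function.Injective c)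
    (hβ : ∀ j, c j ∈ β) : Soft fun j => e (c j) := by
  classical
  obtain ⟨G, hG⟩ := exists_terms (e := e) X adjoin_range_X (β.sum + 1)
  have lt : ∀ y ∈ β, y < β.sum + 1 := fun y hy =>
    Nat.lt_succ_of_le (List.single_le_sum (by simp) _ hy)
  obtain ⟨F, hF⟩ := h G fun y hy => (hG y (lt y hy)).1
  let u : ℕ → MvPolynomial (Fin n) Pq := fun a =>
    if k : ∃ j, c j = a then X k.choose else C (e a)
  have u1 : ∀ j, u (c j) = X j := fun j => by
    have k : ∃ j', c j' = c j := ⟨j, rfl⟩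
    simp only [u, dif_pos k, hc k.choose_spec]
  let ε : MvPolynomial (Fin n) Pq →ₐ[ℚ] Pq := (aeval fun j => e (c j)).restrictScalars ℚ
  have u2 : ∀ a, ε (u a) = e a := fun a => by
    by_cases k : ∃ j, c j = a
    · obtain ⟨j, rfl⟩ := k
      simp [u1, ε]
    · simp [u, dif_neg k, ε]
  let φ : Pq →ₐ[ℚ] MvPolynomial (Fin n) Pq := aeval fun k =>
    if val e (F.getD (e.symm (X k)) default) = X k then val u (F.getD (e.symm (X k)) default)
    else C (X k)
  refine ⟨φ, fun j => ?_, fun r => ?_⟩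
  · obtain ⟨h1, h2⟩ := hF _ (hβ j)
    obtain ⟨h3, h4⟩ := hG _ (lt _ (hβ j))
    have h5 := congrArg (aeval u : Pq →ₐ[ℚ] _) ((ident_iff _ _ _).1 h2)
    rw [aeval_X, u1, map_val' _ _ (fun i => val u (F.getD i default)) _
      fun i _ => map_val' _ _ _ _ fun _ _ => aeval_X _ _] at h5
    change φ (e (c j)) = _
    rw [← h5, ← h3]
    refine map_val' φ _ _ _ fun i hi => ?_
    obtain ⟨k, hk⟩ := h4 i hi
    have : e.symm (X k) = i := by rw [hk, e.symm_apply_apply]
    rw [← hk, aeval_X, this, if_pos (by rw [h1 i hi, hk])]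
  · have : ε.comp φ = AlgHom.id ℚ Pq := by
      refine algHom_ext fun k => ?_
      rw [AlgHom.comp_apply, aeval_X]
      split_ifs with l
      · rw [map_val' ε u e _ fun a _ => u2 a, l]
        rfl
      · simp [ε]
    exact congr($this r)

theorem Part.ext {β : List ℕ} (h : Part e β) (l : ℕ) : ∃ δ, (∀ x ∈ δ, x ∉ β) ∧ Part e (β ++ δ) ∧
    ∃ t : Tm, val e t = e l ∧ ∀ x ∈ supp t, x ∈ β ++ δ := by
  obtain ⟨ψ, hψ⟩ := h
  obtain ⟨F, hF⟩ := exists_terms (e := e) _ (adjoin_basis ψ) (l + 1)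
  obtain ⟨h1, h2⟩ := hF l l.lt_succ_self
  refine ⟨(supp (F.getD l default)).filter fun x => x ∉ β, fun x hx => by simp_all,
    ⟨ψ, fun y hy => ?_⟩, _, h1, fun x hx => ?_⟩
  · rcases List.mem_append.1 hy with k | k
    · exact hψ y k
    · exact h2 y (List.mem_filter.1 k).1
  · by_cases k : x ∈ β
    · exact List.mem_append_left _ k
    · exact List.mem_append_right _ (List.mem_filter.2 ⟨hx, by simpa using k⟩)

theorem Part.shift {β δ : List ℕ} (h : Part e (β ++ δ)) (d : ∀ x ∈ δ, x ∉ β) {s : ℕ → ℕ} {q : ℚ}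
    (hs : ∀ x, e (s x) = e x + C q) : Part e (β ++ δ.map s) := by
  classical
  obtain ⟨ψ, hψ⟩ := h
  let κ : ℕ → ℚ := fun k => if e.symm (ψ (X k)) ∈ δ then q else 0
  let τ : Pq ≃ₐ[ℚ] Pq := AlgEquiv.ofAlgHom (aeval fun k => X k + C (κ k))
    (aeval fun k => X k - C (κ k)) (algHom_ext fun k => by simp) (algHom_ext fun k => by simp)
  have hτ : ∀ k, (τ.trans ψ) (X k) = ψ (X k) + C (κ k) := fun k => by
    have : ψ (C (κ k)) = C (κ k) := ψ.commutes _
    simp [τ, this]
  refine ⟨τ.trans ψ, fun y hy => ?_⟩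
  rcases List.mem_append.1 hy with k | k
  · obtain ⟨i, hi⟩ := hψ y (List.mem_append_left _ k)
    refine ⟨i, ?_⟩
    have : κ i = 0 := if_neg (by rw [hi, e.symm_apply_apply]; exact fun l => d y l k)
    rw [hτ, this, hi, map_zero, add_zero]
  · obtain ⟨x, hx, rfl⟩ := List.mem_map.1 k
    obtain ⟨i, hi⟩ := hψ x (List.mem_append_right _ hx)
    refine ⟨i, ?_⟩
    have : κ i = q := if_pos (by rwa [hi, e.symm_apply_apply])
    rw [hτ, this, hi, hs]

theorem Part.indep {β : List ℕ} (h : Part e β) :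
    AlgebraicIndependent ℚ ((↑) : (e '' {x | x ∈ β}) → Pq) := by
  obtain ⟨ψ, hψ⟩ := h
  refine ((algebraicIndependent_X ℕ ℚ).map' (f := ψ.toAlgHom) ψ.injective).coe_range.mono ?_
  rintro _ ⟨y, hy, rfl⟩
  exact hψ y hy

end

namespace Ops

variable (O : Ops)

/-- The term `t` has the value `y`. -/
def chkV (t : Tm) (y : ℕ) : Bool :=
  O.evN (fun j => j) t.2.1 == O.evN (fun j => j) (scal (t.1 + 1) [[y]] ++ t.2.2)

/-- Translation by a natural number. -/
def trN (x k : ℕ) : ℕ := (List.range k).foldr (fun _ y => O.add y O.o) x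

variable {O} {e : ℕ ≃ Pq}

theorem Sound.chkV (h : O.Sound e) (t : Tm) (y : ℕ) : O.chkV t y = true ↔ val e t = e y := by
  unfold Ops.chkV
  rw [beq_iff_eq, ← e.injective.eq_iff, h.evN, h.evN]
  simp only [ev_append, ev_scal, ev_cons, List.map_cons, List.map_nil, List.prod_cons,
    List.prod_nil, mul_one, ev_nil, add_zero]
  push_cast
  have h1 := mul_val e t
  refine ⟨fun h => cancel_succ t.1 ?_, fun h => ?_⟩
  · linear_combination h1 + h
  · rw [h] at h1; linear_combination -h1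

theorem Sound.trN (h : O.Sound e) (x k : ℕ) : e (O.trN x k) = e x + C (k : ℚ) := by
  unfold Ops.trN
  induction k with
  | zero => simp
  | succ k ih =>
    rw [List.range_succ_eq_map, List.foldr_cons, List.foldr_map, h.add, ih, h.o]
    simp [add_assoc]

variable (ca : CP fun p : ℕ × ℕ => O.add p.1 p.2) (cm : CP fun p : ℕ × ℕ => O.mul p.1 p.2)
include ca

theorem cp_trN : CP fun p : ℕ × ℕ => O.trN p.1 p.2 := by
  unfold trN
  exact CP.foldr (by fun_prop) (by fun_prop)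
    (CP.comp' (g := fun p : (ℕ × ℕ) × ℕ × ℕ => (p.2.2, O.o)) ca (by fun_prop))

include cm

theorem cp_evN : CP (O.evN fun j => j) := by
  unfold evN
  refine CP.foldr (f := fun L : LP => L) (by fun_prop) (by fun_prop) ?_
  refine CP.comp' (g := fun p : LP × List ℕ × ℕ =>
    (p.2.1.foldr (fun j a => O.mul j a) O.o, p.2.2)) ca (CP.pair ?_ (by fun_prop))
  exact CP.foldr (by fun_prop) (by fun_prop)
    (CP.comp' (g := fun p : (LP × List ℕ × ℕ) × ℕ × ℕ => p.2) cm (by fun_prop))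

theorem cp_chkV {α : Type} [Primcodable α] {t : α → Tm} {y : α → ℕ} (ht : CP t) (hy : CP y) :
    CP fun a => O.chkV (t a) (y a) := by
  have : CP fun p : Tm × ℕ => O.chkV p.1 p.2 := by
    unfold chkV
    exact CP.beq ((cp_evN ca cm).comp' (by fun_prop))
      ((cp_evN ca cm).comp' (CP.of_pr (by fun_prop)))
  exact CP.comp' (g := fun a => (t a, y a)) this (ht.pair hy)

end Ops

theorem cp_supp : CP supp := CP.of_pr (PR.supp PR.id')

theorem p2_cf {O : Ops} {e : ℕ ≃ Pq} (h : O.Sound e) (ca : CP fun p : ℕ × ℕ => O.add p.1 p.2)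
    (cm : CP fun p : ℕ × ℕ => O.mul p.1 p.2) : P2 (Cf e) := by
  have h1 : CP fun p : List ℕ × List Tm => p.1.all fun y => O.chkV (p.2.getD y default) y :=
    CP.all (by fun_prop) (Ops.cp_chkV ca cm (by fun_prop) (by fun_prop))
  have h2 : CP fun q : (List ℕ × List Tm) × List Tm => q.1.1.all fun y =>
      ((supp (q.1.2.getD y default)).all fun i => O.chkV (q.2.getD i default) i) &&
        ident q.2 (q.1.2.getD y default) y := by
    refine CP.all (by fun_prop) (CP.and (CP.all (cp_supp.comp' (by fun_prop))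
      (Ops.cp_chkV ca cm (by fun_prop) (by fun_prop))) ?_)
    exact CP.comp' (f := fun p : List Tm × Tm × ℕ => ident p.1 p.2.1 p.2.2)
      (g := fun p : ((List ℕ × List Tm) × List Tm) × ℕ =>
        (p.1.2, p.1.1.2.getD p.2 default, p.2)) (CP.of_pr pr_ident) (by fun_prop)
  refine (P2.all (P2.imp h1 (P2.ex h2))).congr fun β => ?_
  simp only [Cf, List.all_eq_true, Bool.and_eq_true, h.chkV]

theorem soft_main
    (H : ∀ (n : ℕ) (b : Fin n → MvPolynomial ℕ ℚ), Soft b →
      ∃ ψ : MvPolynomial ℕ ℚ ≃ₐ[ℚ] MvPolynomial ℕ ℚ, ∀ j : Fin n, ψ (X j) = b j)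
    (add mul : ℕ → ℕ → ℕ) (e : ℕ ≃ MvPolynomial ℕ ℚ) (ca : Computable₂ add) (cm : Computable₂ mul)
    (hadd : ∀ i j, e (add i j) = e i + e j) (hmul : ∀ i j, e (mul i j) = e i * e j) :
    ∃ B : Set ℕ, IsPi2 B ∧ AlgebraicIndependent ℚ (fun b : B => e b) ∧
      Algebra.adjoin ℚ (e '' B) = ⊤ := by
  classical
  let O : Ops := ⟨add, mul, e.symm 0, e.symm 1⟩
  have hS : O.Sound e := ⟨hadd, hmul, e.apply_symm_apply _, e.apply_symm_apply _⟩
  have ca' : CP fun p : ℕ × ℕ => O.add p.1 p.2 := ca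
  have cm' : CP fun p : ℕ × ℕ => O.mul p.1 p.2 := cm
  have part : ∀ β, Cf e β → Part e β := fun β h => by
    let c := β.toFinset.equivFin.symm
    have hs : ∀ y ∈ β, ∃ j, (c j : ℕ) = y := fun y hy =>
      ⟨c.symm ⟨y, List.mem_toFinset.2 hy⟩, by simp⟩
    obtain ⟨ψ, hψ⟩ := H _ _ (h.soft (fun j => (c j : ℕ)) (Subtype.val_injective.comp c.injective)
      fun j => List.mem_toFinset.1 (c j).2)
    refine ⟨ψ, fun y hy => ?_⟩
    obtain ⟨j, rfl⟩ := hs y hy
    exact ⟨j, hψ j⟩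
  let Good : List ℕ × ℕ × List ℕ → Prop := fun p => (p.2.2.all fun x => !mb x p.1) = true ∧
    Cf e (p.1 ++ p.2.2) ∧ ∃ t : Tm, (O.chkV t p.2.1 && (supp t).all fun x =>
      mb x (p.1 ++ p.2.2)) = true
  have good : ∀ β l δ, Good (β, l, δ) ↔ (∀ x ∈ δ, x ∉ β) ∧ Cf e (β ++ δ) ∧
      ∃ t : Tm, val e t = e l ∧ ∀ x ∈ supp t, x ∈ β ++ δ := fun β l δ => by
    simp only [Good, List.all_eq_true, Bool.and_eq_true, hS.chkV, mb_iff, Bool.not_eq_true',
      ← Bool.not_eq_true]
  have pG : P2 Good := by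
    refine (P2.bool (CP.all (by fun_prop) (by fun_prop))).and
      (((p2_cf hS ca' cm').comp (by fun_prop)).and ?_)
    exact P2.ex (f := fun q : (List ℕ × ℕ × List ℕ) × Tm => O.chkV q.2 q.1.2.1 &&
      (supp q.2).all fun x => mb x (q.1.1 ++ q.1.2.2))
      (CP.and (Ops.cp_chkV ca' cm' (by fun_prop) (by fun_prop))
        (CP.all (cp_supp.comp' (by fun_prop)) (by fun_prop)))
  obtain ⟨β, h1, h2, h3⟩ := exists_path (tr := fun δ k => δ.map fun x => O.trN x k)
    (CP.map (by fun_prop) (CP.comp' (g := fun p : (List ℕ × ℕ) × ℕ => (p.2, p.1.2))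
      (Ops.cp_trN ca') (by fun_prop))) (fun δ N => by
      have f : {k | ∃ x ∈ δ, O.trN x k ≤ N}.Finite := by
        refine ((δ.finite_toSet).biUnion fun x _ => (Set.finite_le_nat N).preimage
          (f := fun k => O.trN x k) fun k _ k' _ l => ?_).subset fun k hk => by simpa using hk
        have := congrArg e l
        simpa [hS.trN] using this
      obtain ⟨k, hk⟩ := f.exists_notMem
      exact ⟨k, by simpa using hk⟩) pG (Inv := Part e) ⟨.refl, by simp⟩
    (fun β l h => (h.ext l).imp fun δ k => (good _ _ _).2 ⟨k.1, k.2.1.cf, k.2.2⟩)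
    fun β l δ k g => (part _ ((good _ _ _).1 g).2.1).shift ((good _ _ _).1 g).1
      fun x => hS.trN x k
  have mono : Monotone fun l => e '' {x | x ∈ β l} := monotone_nat_of_le_succ fun l => by
    obtain ⟨δ, k, -, h⟩ := h2 l
    exact Set.image_mono fun x hx => by simp_all
  have im : e '' {n | ∃ l, n ∈ β l} = ⋃ l, e '' {x | x ∈ β l} := by
    rw [← Set.image_iUnion, Set.ofPred_exists]
  refine ⟨{n | ∃ l, n ∈ β l}, P2.isPi2 h3, ?_, eq_top_iff.2 fun r _ => ?_⟩
  · have := algebraicIndependent_iUnion_of_directed mono.directed_le fun l => (h1 l).indep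
    rw [← im] at this
    exact this.comp (fun b : {n | ∃ l, n ∈ β l} => ⟨e b, b, b.2, rfl⟩)
      fun b b' l => Subtype.ext (e.injective (congrArg Subtype.val l))
  · obtain ⟨l, rfl⟩ := e.surjective r
    obtain ⟨δ, k, g, h⟩ := h2 l
    obtain ⟨-, -, t, h4, h5⟩ := (good _ _ _).1 g
    rw [← h4]
    refine val_mem _ _ _ fun x hx => ?_
    rcases List.mem_append.1 (h5 x hx) with m | m
    · exact Algebra.subset_adjoin ⟨x, ⟨l, m⟩, rfl⟩
    · rw [eq_sub_of_add_eq (hS.trN x k).symm]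
      exact sub_mem (Algebra.subset_adjoin ⟨_, ⟨l + 1, by
        rw [h]; exact List.mem_append_right _ (List.mem_map_of_mem m)⟩, rfl⟩)
        (Subalgebra.algebraMap_mem _ (k : ℚ))

end Pool.Agent.Lib.MP_9f1eae_lc
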