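import Mathlib
import Pool.Agent.Lib.MP_9f1eae_lc.Comp


namespace Pool.Agent.Lib.MP_9f1eae_lc

open Pool.Agent.Lib.MP_3d42d9_lc MvPolynomial

theorem main : ∃ (add mul : ℕ → ℕ → ℕ) (e : ℕ ≃ MvPolynomial ℕ ℚ),
    Computable₂ add ∧ Computable₂ mul ∧
    (∀ i j, e (add i j) = e i + e j) ∧ (∀ i j, e (mul i j) = e i * e j) ∧
    ∀ B : Set ℕ, AlgebraicIndependent ℚ (fun b : B => e b) → Algebra.adjoin ℚ (e '' B) = ⊤ →
      ¬ IsSigma2 B ∧ ∀ Y, IsPi2 Y → TuringReducible (chi Y) (chi B) := by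
  obtain ⟨e, add, mul, α, padd, pmul, pα, hadd, hmul, hα⟩ := exists_copy rel pr_rel rel_unique
  let O : Ops := ⟨add, mul, e.symm 0, e.symm 1⟩
  have hE : O.Eff := ⟨padd, pmul⟩
  have hS : O.Sound e := ⟨hadd, hmul, e.apply_symm_apply _, e.apply_symm_apply _⟩
  refine ⟨add, mul, e, padd.primrec.to_comp, pmul.primrec.to_comp, hadd, hmul, fun B hi hg => ?_⟩
  have hP : ∀ n, PP n ↔ ∃ c, O.chkP (α n) c = true ∧ ∀ b ∈ supp c.2, b ∈ B := by
    intro n
    obtain ⟨h0, h1, h2⟩ := hα n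
    rw [rel_exists] at h1 h2
    constructor
    · intro h
      obtain ⟨i, hi⟩ := h1 (not_not.2 h)
      exact certP_complete hS hg hi
    · rintro ⟨c, hc, hs⟩
      by_contra h
      obtain ⟨i1, i2, i3, i4, ha⟩ := h2 h
      exact certP_sound hS hi hg h0 ha hc hs
  have hN : ∀ n, ¬ PP n ↔ ∃ c, O.chkN (α n) c = true ∧ ∀ b ∈ Ops.suppN c, b ∈ B := by
    intro n
    obtain ⟨h0, h1, h2⟩ := hα n
    rw [rel_exists] at h1 h2
    constructor
    · intro h
      obtain ⟨i1, i2, i3, i4, ha⟩ := h2 h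
      exact certN_complete hS hg ha
    · rintro ⟨c, hc, hs⟩ h
      obtain ⟨i, ha⟩ := h1 (not_not.2 h)
      exact certN_sound hS hi hg ha hc hs
  have psp : PR (fun c : List ℕ × Tm => supp c.2) := by fun_prop
  constructor
  · intro hB
    refine not_sigma2_PP (sigma2_of_cert (chk := fun n c => O.chkP (α n) c) ?_ psp hP hB)
    exact PR.comp' (g := fun p : ℕ × List ℕ × Tm => (α p.1, p.2)) hE.chkP (by fun_prop)
  · intro Y hY
    obtain ⟨c, hc⟩ := pi2_complete hY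
    refine turing_of_cert (chk := fun n d => O.chkP (α (Nat.pair c n)) d)
      (chk' := fun n d => O.chkN (α (Nat.pair c n)) d) ?_ psp ?_ Ops.pr_suppN
      (fun n => by rw [hc, hP]) (fun n => by rw [hc, hN])
    · exact PR.comp' (g := fun p : ℕ × List ℕ × Tm => (α (Nat.pair c p.1), p.2)) hE.chkP
        (by fun_prop)
    · exact PR.comp' (g := fun p : ℕ × Ops.CN => (α (Nat.pair c p.1), p.2)) hE.chkN
        (by fun_prop)

end Pool.Agent.Lib.MP_9f1eae_lc
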